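import Mathlib

/-!
# Parallel toppling of the divisible sandpile on a locally finite graph
-/

namespace Pool.Agent.Q287.DS

variable {V : Type*}

/-- One step of parallel toppling.  The input is a pair `(u, s)` of odometer and configuration;
every vertex with mass above `1` keeps mass `1` and splits the excess equally among its
neighbours, and its odometer grows by the amount sent to each neighbour. -/
noncomputable def toppleStep (G : SimpleGraph V) [G.LocallyFinite] (p : (V → ℝ) × (V → ℝ)) :
    (V → ℝ) × (V → ℝ) :=
  (fun v => p.1 v + max (p.2 v - 1) 0 / (G.degree v : ℝ),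
   fun v => min (p.2 v) 1 +
     ∑ w ∈ G.neighborFinset v, max (p.2 w - 1) 0 / (G.degree w : ℝ))

/-- The pair `(u_n, σ_n)` after `n` steps of parallel toppling from the configuration `σ`. -/
noncomputable def topple (G : SimpleGraph V) [G.LocallyFinite] (σ : V → ℝ) :
    ℕ → (V → ℝ) × (V → ℝ)
  | 0 => (fun _ => 0, σ)
  | n + 1 => toppleStep G (topple G σ n)

/-- The configuration `σ` stabilizes: the (nondecreasing) odometer `u_n(v)` stays bounded at
every vertex `v`, that is, `u_∞(v) < ∞` for every `v`. -/
def Stabilizes (G : SimpleGraph V) [G.LocallyFinite] (σ : V → ℝ) : Prop :=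
  ∀ v, BddAbove (Set.range fun n : ℕ => (topple G σ n).1 v)

end Pool.Agent.Q287.DS
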