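import Pool.Agent.Q287.DS.Defs

/-!
# Deterministic part: least action, the obstacle recursion, sub-evolutions
-/

namespace Pool.Agent.Q287.DS

open Finset

variable {V : Type*} (G : SimpleGraph V) [G.LocallyFinite]

/-! ## Least action -/

theorem topple_mass (hdeg : ∀ v, 0 < G.degree v) (σ : V → ℝ) (n : ℕ) (v : V) :
    (topple G σ n).2 v = σ v + ∑ w ∈ G.neighborFinset v,
      ((topple G σ n).1 w - (topple G σ n).1 v) := by
  induction n with
  | zero => simp [topple]
  | succ n ih =>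
    have hd : (0:ℝ) < G.degree v := by exact_mod_cast hdeg v
    have e1 : (topple G σ (n+1)).2 v = min ((topple G σ n).2 v) 1 +
        ∑ w ∈ G.neighborFinset v, max ((topple G σ n).2 w - 1) 0 / (G.degree w : ℝ) := rfl
    have e2 : ∀ w, (topple G σ (n+1)).1 w = (topple G σ n).1 w +
        max ((topple G σ n).2 w - 1) 0 / (G.degree w : ℝ) := fun w => rfl
    rw [e1]
    simp only [e2]
    have e3 : ∑ w ∈ G.neighborFinset v, ((topple G σ n).1 w +
        max ((topple G σ n).2 w - 1) 0 / (G.degree w : ℝ) - ((topple G σ n).1 v +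
        max ((topple G σ n).2 v - 1) 0 / (G.degree v : ℝ))) =
        ∑ w ∈ G.neighborFinset v, ((topple G σ n).1 w - (topple G σ n).1 v) +
        ∑ w ∈ G.neighborFinset v, max ((topple G σ n).2 w - 1) 0 / (G.degree w : ℝ)
        - max ((topple G σ n).2 v - 1) 0 := by
      have : ∀ w ∈ G.neighborFinset v, ((topple G σ n).1 w +
        max ((topple G σ n).2 w - 1) 0 / (G.degree w : ℝ) - ((topple G σ n).1 v +
        max ((topple G σ n).2 v - 1) 0 / (G.degree v : ℝ))) =
        (((topple G σ n).1 w - (topple G σ n).1 v) +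
        max ((topple G σ n).2 w - 1) 0 / (G.degree w : ℝ)) -
        max ((topple G σ n).2 v - 1) 0 / (G.degree v : ℝ) := by
        intro w _; ring
      rw [Finset.sum_congr rfl this, Finset.sum_sub_distrib, Finset.sum_add_distrib,
        Finset.sum_const, G.card_neighborFinset_eq_degree, nsmul_eq_mul,
        mul_div_cancel₀ _ hd.ne']
    rw [e3]
    have e4 : min ((topple G σ n).2 v) 1 = (topple G σ n).2 v - max ((topple G σ n).2 v - 1) 0 := by
      rcases le_total ((topple G σ n).2 v) 1 with h | h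
      · rw [min_eq_left h, max_eq_right (by linarith)]; ring
      · rw [min_eq_right h, max_eq_left (by linarith)]; ring
    rw [e4, ih]
    ring

theorem least_action (hdeg : ∀ v, 0 < G.degree v) (σ f : V → ℝ) (hf : ∀ v, 0 ≤ f v)
    (hsuper : ∀ v, σ v - 1 + ∑ w ∈ G.neighborFinset v, (f w - f v) ≤ 0) (n : ℕ) (v : V) :
    (topple G σ n).1 v ≤ f v := by
  induction n generalizing v with
  | zero => exact hf v
  | succ n ih =>
    have hd : (0:ℝ) < G.degree v := by exact_mod_cast hdeg v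
    have e2 : (topple G σ (n+1)).1 v = (topple G σ n).1 v +
        max ((topple G σ n).2 v - 1) 0 / (G.degree v : ℝ) := rfl
    rw [e2]
    rcases le_total ((topple G σ n).2 v) 1 with h | h
    · rw [max_eq_right (by linarith), zero_div, add_zero]; exact ih v
    · rw [max_eq_left (by linarith)]
      have hm := topple_mass G hdeg σ n v
      have h1 := hsuper v
      rw [Finset.sum_sub_distrib, Finset.sum_const, G.card_neighborFinset_eq_degree,
        nsmul_eq_mul] at h1 hm
      have h2 : ∑ w ∈ G.neighborFinset v, (topple G σ n).1 w ≤ ∑ w ∈ G.neighborFinset v, f w :=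
        Finset.sum_le_sum fun w _ => ih w
      have h3 : (topple G σ n).1 v + ((topple G σ n).2 v - 1) / (G.degree v : ℝ) =
          (G.degree v * (topple G σ n).1 v + ((topple G σ n).2 v - 1)) / (G.degree v : ℝ) := by
        field_simp
      rw [h3, div_le_iff₀ hd]
      linarith

theorem stabilizes_of_super (hdeg : ∀ v, 0 < G.degree v) (σ f : V → ℝ) (hf : ∀ v, 0 ≤ f v)
    (hsuper : ∀ v, σ v - 1 + ∑ w ∈ G.neighborFinset v, (f w - f v) ≤ 0) : Stabilizes G σ := by
  intro v
  refine ⟨f v, ?_⟩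
  rintro _ ⟨n, rfl⟩
  exact least_action G hdeg σ f hf hsuper n v

/-! ## The averaging operator -/

/-- averaging operator -/
noncomputable def av (c : ℝ) (g : V → ℝ) (v : V) : ℝ :=
  g v + c * ∑ w ∈ G.neighborFinset v, (g w - g v)

theorem av_eq (c : ℝ) (g : V → ℝ) (v : V) :
    av G c g v = (1 - c * G.degree v) * g v + c * ∑ w ∈ G.neighborFinset v, g w := by
  unfold av
  rw [Finset.sum_sub_distrib, Finset.sum_const, G.card_neighborFinset_eq_degree, nsmul_eq_mul]
  ring

theorem av_mono {c : ℝ} (hc0 : 0 ≤ c) (hc : ∀ v, c * G.degree v ≤ 1) {g g' : V → ℝ}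
    (h : ∀ v, g v ≤ g' v) (v : V) : av G c g v ≤ av G c g' v := by
  rw [av_eq, av_eq]
  have h1 : (1 - c * G.degree v) * g v ≤ (1 - c * G.degree v) * g' v :=
    mul_le_mul_of_nonneg_left (h v) (by linarith [hc v])
  have h2 : c * ∑ w ∈ G.neighborFinset v, g w ≤ c * ∑ w ∈ G.neighborFinset v, g' w :=
    mul_le_mul_of_nonneg_left (Finset.sum_le_sum fun w _ => h w) hc0
  linarith

theorem av_const (c a : ℝ) (v : V) : av G c (fun _ => a) v = a := by
  simp [av]

theorem av_add (c : ℝ) (g g' : V → ℝ) (v : V) :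
    av G c (fun v => g v + g' v) v = av G c g v + av G c g' v := by
  simp only [av_eq, Finset.sum_add_distrib]; ring

theorem av_smul (c a : ℝ) (g : V → ℝ) (v : V) :
    av G c (fun v => a * g v) v = a * av G c g v := by
  simp only [av_eq, ← Finset.mul_sum]; ring

/-! ## The obstacle recursion -/

/-- value iteration of the obstacle problem -/
noncomputable def W (c : ℝ) (η : V → ℝ) : ℕ → V → ℝ
  | 0 => fun _ => 0
  | n + 1 => fun v => max 0 (η v + av G c (W c η n) v)

theorem W_nonneg (c : ℝ) (η : V → ℝ) (n : ℕ) (v : V) : 0 ≤ W G c η n v := by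
  cases n with
  | zero => exact le_rfl
  | succ n => exact le_max_left _ _

theorem W_mono_succ {c : ℝ} (hc0 : 0 ≤ c) (hc : ∀ v, c * G.degree v ≤ 1) (η : V → ℝ) (n : ℕ) :
    ∀ v, W G c η n v ≤ W G c η (n+1) v := by
  induction n with
  | zero => intro v; exact W_nonneg G c η 1 v
  | succ n ih =>
    intro v
    exact max_le_max le_rfl (add_le_add le_rfl (av_mono G hc0 hc ih v))

theorem W_mono {c : ℝ} (hc0 : 0 ≤ c) (hc : ∀ v, c * G.degree v ≤ 1) (η : V → ℝ) (v : V) :
    Monotone fun n => W G c η n v :=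
  monotone_nat_of_le_succ fun n => W_mono_succ G hc0 hc η n v

theorem super_of_bdd {c : ℝ} (hc0 : 0 < c) (hc : ∀ v, c * G.degree v ≤ 1) (η : V → ℝ)
    (hb : ∀ v, BddAbove (Set.range fun n => W G c η n v)) :
    ∃ f : V → ℝ, (∀ v, 0 ≤ f v) ∧ ∀ v, η v + ∑ w ∈ G.neighborFinset v, (f w - f v) ≤ 0 := by
  have ht : ∀ v, Filter.Tendsto (fun n => W G c η n v) Filter.atTop
      (nhds (⨆ n, W G c η n v)) := fun v =>
    tendsto_atTop_ciSup (W_mono G hc0.le hc η v) (hb v)
  refine ⟨fun v => c * ⨆ n, W G c η n v, fun v => mul_nonneg hc0.le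
    ((W_nonneg G c η 0 v).trans (le_ciSup (hb v) 0)), fun v => ?_⟩
  have h1 : Filter.Tendsto (fun n => η v + av G c (W G c η n) v) Filter.atTop
      (nhds (η v + av G c (fun v => ⨆ n, W G c η n v) v)) := by
    refine tendsto_const_nhds.add ?_
    unfold av
    exact (ht v).add ((tendsto_finsetSum _ fun w _ => (ht w).sub (ht v)).const_mul c)
  have h2 : Filter.Tendsto (fun n => W G c η (n+1) v) Filter.atTop
      (nhds (⨆ n, W G c η n v)) := (Filter.tendsto_add_atTop_iff_nat 1).2 (ht v)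
  have h3 := le_of_tendsto_of_tendsto' h1 h2 fun n => le_max_right _ _
  unfold av at h3
  have h4 : ∑ w ∈ G.neighborFinset v, (c * (⨆ n, W G c η n w) - c * ⨆ n, W G c η n v) =
      c * ∑ w ∈ G.neighborFinset v, ((⨆ n, W G c η n w) - ⨆ n, W G c η n v) := by
    rw [Finset.mul_sum]
    exact Finset.sum_congr rfl fun w _ => by ring
  simp only
  rw [h4]
  linarith

/-! ## Finitely supported measures -/

/-- pairing of a function with a finitely supported measure -/
noncomputable def pr (g : V → ℝ) : (V →₀ ℝ) →ₗ[ℝ] ℝ := Finsupp.linearCombination ℝ g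

theorem pr_single (g : V → ℝ) (v : V) (a : ℝ) : pr g (Finsupp.single v a) = a * g v := by
  simp [pr]

theorem pr_apply (g : V → ℝ) (q : V →₀ ℝ) : pr g q = ∑ v ∈ q.support, q v * g v := by
  simp [pr, Finsupp.linearCombination_apply, Finsupp.sum]

theorem pr_apply_of_subset (g : V → ℝ) (q : V →₀ ℝ) {S : Finset V} (h : q.support ⊆ S) :
    pr g q = ∑ v ∈ S, q v * g v := by
  rw [pr_apply]
  refine Finset.sum_subset h fun v _ hv => ?_
  rw [Finsupp.notMem_support_iff.1 hv, zero_mul]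

theorem pr_mono {g g' : V → ℝ} {q : V →₀ ℝ} (hq : 0 ≤ q) (h : ∀ v, g v ≤ g' v) :
    pr g q ≤ pr g' q := by
  rw [pr_apply, pr_apply]
  exact Finset.sum_le_sum fun v _ => mul_le_mul_of_nonneg_left (h v) (hq v)

theorem pr_nonneg {g : V → ℝ} {q : V →₀ ℝ} (hq : 0 ≤ q) (h : ∀ v, 0 ≤ g v) : 0 ≤ pr g q := by
  rw [pr_apply]
  exact Finset.sum_nonneg fun v _ => mul_nonneg (hq v) (h v)

theorem pr_mono_right {g : V → ℝ} (hg : ∀ v, 0 ≤ g v) {q q' : V →₀ ℝ} (h : q ≤ q') :
    pr g q ≤ pr g q' := by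
  have : 0 ≤ pr g (q' - q) := pr_nonneg (by
    intro v
    simpa using h v) hg
  rw [map_sub] at this
  linarith

theorem pr_add_left (g g' : V → ℝ) (q : V →₀ ℝ) :
    pr (fun v => g v + g' v) q = pr g q + pr g' q := by
  simp only [pr_apply, mul_add, Finset.sum_add_distrib]

theorem pr_sub_left (g g' : V → ℝ) (q : V →₀ ℝ) :
    pr (fun v => g v - g' v) q = pr g q - pr g' q := by
  simp only [pr_apply, mul_sub, Finset.sum_sub_distrib]

theorem pr_smul_left (a : ℝ) (g : V → ℝ) (q : V →₀ ℝ) :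
    pr (fun v => a * g v) q = a * pr g q := by
  simp only [pr_apply, Finset.mul_sum]
  exact Finset.sum_congr rfl fun v _ => by ring

/-- total mass -/
noncomputable def mass (q : V →₀ ℝ) : ℝ := pr (fun _ => 1) q

theorem pr_const (a : ℝ) (q : V →₀ ℝ) : pr (fun _ => a) q = a * mass q := by
  unfold mass
  rw [← pr_smul_left]
  simp

/-- transition kernel of the averaging operator -/
noncomputable def tk (c : ℝ) (v : V) : V →₀ ℝ :=
  Finsupp.single v (1 - c * G.degree v) + ∑ w ∈ G.neighborFinset v, Finsupp.single w c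

/-- adjoint of the averaging operator on finitely supported measures -/
noncomputable def Ts (c : ℝ) : (V →₀ ℝ) →ₗ[ℝ] (V →₀ ℝ) := Finsupp.linearCombination ℝ (tk G c)

theorem Ts_single (c : ℝ) (v : V) (a : ℝ) : Ts G c (Finsupp.single v a) = a • tk G c v := by
  simp [Ts]

theorem pr_tk (c : ℝ) (g : V → ℝ) (v : V) : pr g (tk G c v) = av G c g v := by
  unfold tk
  rw [map_add, map_sum, pr_single, av_eq]
  simp only [pr_single]
  rw [Finset.mul_sum]

theorem pr_Ts (c : ℝ) (g : V → ℝ) (q : V →₀ ℝ) : pr g (Ts G c q) = pr (av G c g) q := by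
  induction q using Finsupp.induction_linear with
  | zero => simp
  | add f g hf hg => rw [map_add, map_add, map_add, hf, hg]
  | single v a => rw [Ts_single, map_smul, pr_tk, pr_single]; rfl

theorem tk_nonneg {c : ℝ} (hc0 : 0 ≤ c) (hc : ∀ v, c * G.degree v ≤ 1) (v : V) :
    0 ≤ tk G c v := by
  unfold tk
  refine add_nonneg ?_ (Finset.sum_nonneg fun w _ => ?_)
  · exact Finsupp.single_nonneg.2 (by linarith [hc v])
  · exact Finsupp.single_nonneg.2 hc0

theorem Ts_nonneg {c : ℝ} (hc0 : 0 ≤ c) (hc : ∀ v, c * G.degree v ≤ 1) {q : V →₀ ℝ}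
    (hq : 0 ≤ q) : 0 ≤ Ts G c q := by
  unfold Ts
  rw [Finsupp.linearCombination_apply, Finsupp.sum]
  exact Finset.sum_nonneg fun v _ => smul_nonneg (hq v) (tk_nonneg G hc0 hc v)

theorem Ts_mono {c : ℝ} (hc0 : 0 ≤ c) (hc : ∀ v, c * G.degree v ≤ 1) {q q' : V →₀ ℝ}
    (h : q ≤ q') : Ts G c q ≤ Ts G c q' := by
  have : 0 ≤ Ts G c (q' - q) := Ts_nonneg G hc0 hc (sub_nonneg.2 h)
  rw [map_sub] at this
  exact sub_nonneg.1 this

theorem mass_Ts (c : ℝ) (q : V →₀ ℝ) : mass (Ts G c q) = mass q := by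
  unfold mass
  rw [pr_Ts]
  congr 2
  funext v
  exact av_const G c 1 v

theorem Ts_apply (c : ℝ) (q : V →₀ ℝ) (z : V) : Ts G c q z = av G c (⇑q) z := by
  classical
  induction q using Finsupp.induction_linear with
  | zero => simp [av]
  | add f g hf hg =>
    rw [map_add, Finsupp.add_apply, hf, hg, ← av_add]
    rfl
  | single v a =>
    rw [Ts_single, Finsupp.smul_apply, av_eq]
    unfold tk
    rw [Finsupp.add_apply, Finsupp.finsetSum_apply]
    simp only [Finsupp.single_apply, smul_eq_mul]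
    have h1 : ∑ w ∈ G.neighborFinset v, (if w = z then c else 0) =
        if G.Adj z v then c else 0 := by
      rw [Finset.sum_ite_eq']
      simp [SimpleGraph.mem_neighborFinset, G.adj_comm v z]
    have h2 : ∑ w ∈ G.neighborFinset z, (if v = w then a else 0) =
        if G.Adj z v then a else 0 := by
      rw [Finset.sum_ite_eq]
      simp [SimpleGraph.mem_neighborFinset]
    rw [h1, h2]
    by_cases hvz : v = z
    · subst hvz; simp; ring
    · simp only [hvz, if_false]
      split_ifs <;> ring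

/-- heat kernel -/
noncomputable def Kn (c : ℝ) (x : V) : ℕ → V →₀ ℝ
  | 0 => Finsupp.single x 1
  | n + 1 => Ts G c (Kn c x n)

theorem Kn_nonneg {c : ℝ} (hc0 : 0 ≤ c) (hc : ∀ v, c * G.degree v ≤ 1) (x : V) (n : ℕ) :
    0 ≤ Kn G c x n := by
  induction n with
  | zero => exact Finsupp.single_nonneg.2 zero_le_one
  | succ n ih => exact Ts_nonneg G hc0 hc ih

theorem Kn_mass (c : ℝ) (x : V) (n : ℕ) : mass (Kn G c x n) = 1 := by
  induction n with
  | zero => simp [mass, Kn, pr_single]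
  | succ n ih => rw [Kn, mass_Ts, ih]

theorem pr_Kn (c : ℝ) (g : V → ℝ) (x : V) (n : ℕ) :
    pr g (Kn G c x n) = ((av G c)^[n] g) x := by
  induction n generalizing g with
  | zero => simp [Kn, pr_single]
  | succ n ih => rw [Kn, pr_Ts, ih, Function.iterate_succ_apply]

theorem Kn_add_apply (c : ℝ) (x : V) (n m : ℕ) :
    (⇑(Kn G c x (n + m)) : V → ℝ) = (av G c)^[m] (⇑(Kn G c x n)) := by
  induction m with
  | zero => rfl
  | succ m ih =>
    rw [Function.iterate_succ_apply', ← ih]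
    funext z
    rw [← add_assoc, Kn, Ts_apply]

theorem Kn_add_eq (c : ℝ) (x y : V) (n m : ℕ) :
    Kn G c x (n + m) y = pr (⇑(Kn G c x n)) (Kn G c y m) := by
  rw [Kn_add_apply, pr_Kn]

/-! ## Sub-evolutions -/

theorem filter_le_self {q : V →₀ ℝ} (hq : 0 ≤ q) (p : V → Prop) [DecidablePred p] :
    q.filter p ≤ q := by
  intro v
  rw [Finsupp.filter_apply]
  split_ifs
  · exact le_rfl
  · exact hq v

theorem filter_nonneg {q : V →₀ ℝ} (hq : 0 ≤ q) (p : V → Prop) [DecidablePred p] :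
    0 ≤ q.filter p := by
  intro v
  rw [Finsupp.filter_apply]
  split_ifs
  · exact hq v
  · exact le_rfl

theorem exists_sub {c : ℝ} (hc0 : 0 ≤ c) (hc : ∀ v, c * G.degree v ≤ 1) (η : V → ℝ) (N : ℕ) :
    ∀ q : V →₀ ℝ, 0 ≤ q → ∃ Q : ℕ → V →₀ ℝ, (∀ i, 0 ≤ Q i) ∧ Q 0 ≤ q ∧
      (∀ i, Q (i+1) ≤ Ts G c (Q i)) ∧ pr (W G c η N) q = ∑ i ∈ range N, pr η (Q i) := by
  classical
  induction N with
  | zero =>
    intro q hq
    refine ⟨fun _ => 0, fun _ => le_rfl, hq, fun i => by simp, ?_⟩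
    have : W G c η 0 = fun _ => (0:ℝ) := rfl
    rw [this, pr_const]
    simp
  | succ N ih =>
    intro q hq
    set q0 : V →₀ ℝ := q.filter (fun v => 0 < W G c η (N+1) v) with hq0
    have hq0n : 0 ≤ q0 := filter_nonneg hq _
    obtain ⟨Q, h1, h2, h3, h4⟩ := ih (Ts G c q0) (Ts_nonneg G hc0 hc hq0n)
    refine ⟨fun i => Nat.casesOn i q0 Q, ?_, ?_, ?_, ?_⟩
    · intro i
      cases i with
      | zero => exact hq0n
      | succ i => exact h1 i
    · exact filter_le_self hq _
    · intro i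
      cases i with
      | zero => exact h2
      | succ i => exact h3 i
    · rw [Finset.sum_range_succ']
      simp only
      rw [← h4, pr_Ts]
      have e1 : pr (W G c η (N+1)) q = pr (W G c η (N+1)) q0 := by
        rw [pr_apply, pr_apply_of_subset (W G c η (N+1)) q0 (S := q.support)]
        · refine Finset.sum_congr rfl fun v _ => ?_
          rw [hq0, Finsupp.filter_apply]
          split_ifs with h
          · rfl
          · have : W G c η (N+1) v = 0 := le_antisymm (not_lt.1 h) (W_nonneg G c η _ v)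
            rw [this]; simp
        · rw [hq0, Finsupp.support_filter]
          exact Finset.filter_subset _ _
      have e2 : pr (W G c η (N+1)) q0 = pr (fun v => av G c (W G c η N) v + η v) q0 := by
        rw [pr_apply, pr_apply]
        refine Finset.sum_congr rfl fun v hv => ?_
        rw [hq0, Finsupp.support_filter, Finset.mem_filter] at hv
        have h5 : W G c η (N+1) v = max 0 (η v + av G c (W G c η N) v) := rfl
        have h6 : W G c η (N+1) v = η v + av G c (W G c η N) v := by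
          rw [h5]
          rw [h5] at hv
          rcases lt_max_iff.1 hv.2 with h | h
          · exact absurd h (lt_irrefl 0)
          · exact max_eq_right h.le
        rw [h6, add_comm (η v)]
      rw [e1, e2, pr_add_left]
      rfl

theorem sub_le_Kn {c : ℝ} (hc0 : 0 ≤ c) (hc : ∀ v, c * G.degree v ≤ 1) (x : V)
    (Q : ℕ → V →₀ ℝ) (h0 : Q 0 ≤ Finsupp.single x 1) (h : ∀ i, Q (i+1) ≤ Ts G c (Q i)) (i : ℕ) :
    Q i ≤ Kn G c x i := by
  induction i with
  | zero => exact h0
  | succ i ih => exact (h i).trans (Ts_mono G hc0 hc ih)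

theorem mass_mono {q q' : V →₀ ℝ} (h : q ≤ q') : mass q ≤ mass q' :=
  pr_mono_right (fun _ => zero_le_one) h

theorem mass_nonneg {q : V →₀ ℝ} (h : 0 ≤ q) : 0 ≤ mass q :=
  pr_nonneg h fun _ => zero_le_one

theorem mass_anti {c : ℝ} (Q : ℕ → V →₀ ℝ) (h : ∀ i, Q (i+1) ≤ Ts G c (Q i)) :
    Antitone fun i => mass (Q i) :=
  antitone_nat_of_succ_le fun i => (mass_mono (h i)).trans_eq (mass_Ts G c _)

/-- telescoping along a sub-evolution -/
theorem tele {c : ℝ} (Q : ℕ → V →₀ ℝ)
    (hQ : ∀ i, 0 ≤ Q i) (h : ∀ i, Q (i+1) ≤ Ts G c (Q i)) (F : V → ℝ) (Λ : ℝ)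
    (hF : ∀ v, -Λ ≤ F v) (a b : ℕ) (hab : a ≤ b) :
    ∑ i ∈ Ico a b, pr (fun v => F v - av G c F v) (Q i) ≤ pr F (Q a) + Λ * mass (Q a) := by
  have key : ∀ i, pr (fun v => F v - av G c F v) (Q i) ≤
      pr (fun v => F v + Λ) (Q i) - pr (fun v => F v + Λ) (Q (i+1)) := by
    intro i
    have h1 : pr (fun v => F v + Λ) (Q (i+1)) ≤ pr (fun v => F v + Λ) (Ts G c (Q i)) :=
      pr_mono_right (fun v => by linarith [hF v]) (h i)
    rw [pr_Ts] at h1
    have h2 : (av G c fun v => F v + Λ) = fun v => av G c F v + Λ := by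
      funext v
      rw [av_add, av_const]
    rw [h2] at h1
    rw [pr_sub_left]
    rw [pr_add_left (av G c F) (fun _ => Λ)] at h1
    rw [pr_add_left F (fun _ => Λ) (Q i)]
    linarith
  have h3 : ∑ i ∈ Ico a b, pr (fun v => F v - av G c F v) (Q i) ≤
      pr (fun v => F v + Λ) (Q a) - pr (fun v => F v + Λ) (Q b) := by
    refine (Finset.sum_le_sum fun i _ => key i).trans ?_
    have := Finset.sum_Ico_sub (fun i => - pr (fun v => F v + Λ) (Q i)) hab
    refine le_of_eq ?_
    rw [show (∑ i ∈ Ico a b, (pr (fun v => F v + Λ) (Q i) - pr (fun v => F v + Λ) (Q (i+1)))) =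
      ∑ i ∈ Ico a b, ((- pr (fun v => F v + Λ) (Q (i+1))) - (- pr (fun v => F v + Λ) (Q i))) from
      Finset.sum_congr rfl fun i _ => by ring, this]
    ring
  have h4 : 0 ≤ pr (fun v => F v + Λ) (Q b) := pr_nonneg (hQ b) fun v => by linarith [hF v]
  rw [pr_add_left F (fun _ => Λ) (Q a), pr_const] at h3
  linarith

/-- the pathwise bound of the obstacle function over dyadic blocks -/
theorem block_bound {c : ℝ} (hc0 : 0 ≤ c) (hc : ∀ v, c * G.degree v ≤ 1)
    {L δ : ℝ} {R : ℕ} (hL : 0 ≤ L) (hδ : 0 < δ) (hR : 2 * L ≤ 3 * δ * R)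
    (η : V → ℝ) (F e : ℕ → V → ℝ)
    (hF : ∀ k v, -(L * 4 ^ k) ≤ F k v) (he : ∀ k v, 0 ≤ e k v)
    (hη : ∀ k v, η v ≤ F k v - av G c (F k) v - 2 * δ + e k v) (x : V) (K : ℕ) :
    W G c η (R * 4 ^ K) x ≤ ∑ i ∈ range R, pr (fun v => max (η v) 0) (Kn G c x i) + L +
      ∑ k ∈ range K, (pr (fun v => max (F k v) 0) (Kn G c x (R * 4 ^ k)) +
        ∑ i ∈ Ico (R * 4 ^ k) (R * 4 ^ (k+1)), pr (e k) (Kn G c x i)) := by
  obtain ⟨Q, hQ, hQ0, hQs, hQW⟩ := exists_sub G hc0 hc η (R * 4 ^ K) (Finsupp.single x 1)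
    (Finsupp.single_nonneg.2 zero_le_one)
  rw [pr_single, one_mul] at hQW
  rw [hQW]
  have hle := sub_le_Kn G hc0 hc x Q hQ0 hQs
  have hanti := mass_anti G Q hQs
  have hm0 : ∀ i, 0 ≤ mass (Q i) := fun i => mass_nonneg (hQ i)
  have hm1 : ∀ i, mass (Q i) ≤ 1 := fun i => (mass_mono (hle i)).trans_eq (Kn_mass G c x i)
  have hstep : ∀ k, R * 4 ^ k ≤ R * 4 ^ (k+1) := fun k =>
    Nat.mul_le_mul_left _ (Nat.pow_le_pow_right (by norm_num) (Nat.le_succ k))
  -- block estimate
  have hblock : ∀ k, ∑ i ∈ Ico (R * 4 ^ k) (R * 4 ^ (k+1)), pr η (Q i) ≤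
      (pr (fun v => max (F k v) 0) (Kn G c x (R * 4 ^ k)) +
        ∑ i ∈ Ico (R * 4 ^ k) (R * 4 ^ (k+1)), pr (e k) (Kn G c x i)) +
      (L * 4 ^ k * mass (Q (R * 4 ^ k)) -
        2 * δ * ∑ i ∈ Ico (R * 4 ^ k) (R * 4 ^ (k+1)), mass (Q i)) := by
    intro k
    have h1 : ∀ i, pr η (Q i) ≤ pr (fun v => F k v - av G c (F k) v) (Q i)
        - 2 * δ * mass (Q i) + pr (e k) (Kn G c x i) := by
      intro i
      have h2 : pr η (Q i) ≤ pr (fun v => ((F k v - av G c (F k) v) + -(2 * δ)) + e k v) (Q i) :=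
        pr_mono (hQ i) fun v => by linarith [hη k v]
      rw [pr_add_left (fun v => (F k v - av G c (F k) v) + -(2 * δ)) (e k),
        pr_add_left (fun v => (F k v - av G c (F k) v)) (fun _ => -(2 * δ)), pr_const] at h2
      have h3 : pr (e k) (Q i) ≤ pr (e k) (Kn G c x i) := pr_mono_right (he k) (hle i)
      linarith
    have h2 := Finset.sum_le_sum fun i (_ : i ∈ Ico (R * 4 ^ k) (R * 4 ^ (k+1))) => h1 i
    rw [Finset.sum_add_distrib, Finset.sum_sub_distrib, ← Finset.mul_sum] at h2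
    have h3 := tele G Q hQ hQs (F k) (L * 4 ^ k) (hF k) _ _ (hstep k)
    have h4 : pr (F k) (Q (R * 4 ^ k)) ≤ pr (fun v => max (F k v) 0) (Kn G c x (R * 4 ^ k)) :=
      (pr_mono (hQ _) fun v => le_max_left _ _).trans
        (pr_mono_right (fun v => le_max_right _ _) (hle _))
    linarith
  -- mass absorption
  have hmass : ∀ K : ℕ, ∑ k ∈ range K, (L * 4 ^ k * mass (Q (R * 4 ^ k)) -
        2 * δ * ∑ i ∈ Ico (R * 4 ^ k) (R * 4 ^ (k+1)), mass (Q i)) +
        L * 4 ^ K * mass (Q (R * 4 ^ K)) ≤ L := by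
    intro K
    induction K with
    | zero => simp only [range_zero, sum_empty, pow_zero, mul_one, zero_add]
              nlinarith [hm1 R, hL]
    | succ K ih =>
      rw [Finset.sum_range_succ]
      have h1 : (3 * R * 4 ^ K : ℝ) * mass (Q (R * 4 ^ (K+1))) ≤
          ∑ i ∈ Ico (R * 4 ^ K) (R * 4 ^ (K+1)), mass (Q i) := by
        have h2 : ∀ i ∈ Ico (R * 4 ^ K) (R * 4 ^ (K+1)), mass (Q (R * 4 ^ (K+1))) ≤ mass (Q i) :=
          fun i hi => hanti (Finset.mem_Ico.1 hi).2.le
        have h3 := Finset.card_nsmul_le_sum _ _ _ h2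
        rw [Nat.card_Ico, nsmul_eq_mul] at h3
        refine le_trans (le_of_eq ?_) h3
        congr 1
        have : R * 4 ^ (K+1) - R * 4 ^ K = 3 * R * 4 ^ K := by
          rw [pow_succ]
          have : R * (4 ^ K * 4) = 3 * R * 4 ^ K + R * 4 ^ K := by ring
          omega
        rw [this]
        push_cast
        ring
      have h4 : L * 4 ^ (K+1) * mass (Q (R * 4 ^ (K+1))) ≤
          2 * δ * ∑ i ∈ Ico (R * 4 ^ K) (R * 4 ^ (K+1)), mass (Q i) := by
        have h5 : 0 ≤ (4:ℝ) ^ K * mass (Q (R * 4 ^ (K+1))) := mul_nonneg (by positivity) (hm0 _)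
        have h6 : 2 * δ * ((3 * R * 4 ^ K : ℝ) * mass (Q (R * 4 ^ (K+1)))) ≤
          2 * δ * ∑ i ∈ Ico (R * 4 ^ K) (R * 4 ^ (K+1)), mass (Q i) :=
          mul_le_mul_of_nonneg_left h1 (by positivity)
        refine le_trans ?_ h6
        have h7 : L * 4 ^ (K+1) * mass (Q (R * 4 ^ (K+1))) =
          2 * (2 * L) * ((4:ℝ) ^ K * mass (Q (R * 4 ^ (K+1)))) := by rw [pow_succ]; ring
        have h8 : 2 * δ * ((3 * R * 4 ^ K : ℝ) * mass (Q (R * 4 ^ (K+1)))) =
          2 * (3 * δ * R) * ((4:ℝ) ^ K * mass (Q (R * 4 ^ (K+1)))) := by ring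
        rw [h7, h8]
        exact mul_le_mul_of_nonneg_right (by linarith) h5
      have h9 : 0 ≤ L * 4 ^ K * mass (Q (R * 4 ^ K)) :=
        mul_nonneg (mul_nonneg hL (by positivity)) (hm0 _)
      linarith
  -- assemble
  have hsum : ∀ K : ℕ, ∑ i ∈ range (R * 4 ^ K), pr η (Q i) = ∑ i ∈ range R, pr η (Q i) +
      ∑ k ∈ range K, ∑ i ∈ Ico (R * 4 ^ k) (R * 4 ^ (k+1)), pr η (Q i) := by
    intro K
    induction K with
    | zero => simp
    | succ K ih =>
      rw [Finset.sum_range_succ, ← add_assoc, ← ih, Finset.sum_range_add_sum_Ico _ (hstep K)]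
  rw [hsum]
  have h1 : ∑ i ∈ range R, pr η (Q i) ≤ ∑ i ∈ range R, pr (fun v => max (η v) 0) (Kn G c x i) :=
    Finset.sum_le_sum fun i _ => (pr_mono (hQ _) fun v => le_max_left _ _).trans
        (pr_mono_right (fun v => le_max_right _ _) (hle _))
  have h2 := Finset.sum_le_sum fun k (_ : k ∈ range K) => hblock k
  rw [Finset.sum_add_distrib] at h2
  have h3 := hmass K
  have h4 : 0 ≤ L * 4 ^ K * mass (Q (R * 4 ^ K)) :=
        mul_nonneg (mul_nonneg hL (by positivity)) (hm0 _)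
  linarith

end Pool.Agent.Q287.DS
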