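import Pool.Agent.Q287.DS.Det

/-!
# Heat kernel bound `K_n(x, z)^2 (n + 1) ≤ 32 D` on infinite connected graphs
-/

namespace Pool.Agent.Q287.DS

open Finset

variable {V : Type*} (G : SimpleGraph V) [G.LocallyFinite]

theorem sum_nbr_eq (S : Finset V) (v : V) (ψ : V → ℝ)
    [DecidableRel G.Adj] (h : ∀ w, G.Adj v w → ψ w ≠ 0 → w ∈ S) :
    ∑ w ∈ G.neighborFinset v, ψ w = ∑ w ∈ S, if G.Adj v w then ψ w else 0 := by
  rw [← Finset.sum_filter]
  symm
  refine Finset.sum_subset ?_ ?_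
  · intro w hw
    rw [Finset.mem_filter] at hw
    rw [SimpleGraph.mem_neighborFinset]
    exact hw.2
  · intro w hw hw2
    rw [SimpleGraph.mem_neighborFinset] at hw
    rw [Finset.mem_filter, not_and] at hw2
    by_contra h0
    exact hw2 (h w hw h0) hw

theorem swap_sum (S : Finset V) (φ : V → V → ℝ)
    (h : ∀ v w, G.Adj v w → φ v w ≠ 0 → v ∈ S ∧ w ∈ S) :
    ∑ v ∈ S, ∑ w ∈ G.neighborFinset v, φ v w = ∑ v ∈ S, ∑ w ∈ G.neighborFinset v, φ w v := by
  classical
  have h1 : ∀ v, ∑ w ∈ G.neighborFinset v, φ v w = ∑ w ∈ S, if G.Adj v w then φ v w else 0 :=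
    fun v => sum_nbr_eq G S v _ fun w hw h0 => (h v w hw h0).2
  have h2 : ∀ v, ∑ w ∈ G.neighborFinset v, φ w v = ∑ w ∈ S, if G.Adj v w then φ w v else 0 :=
    fun v => sum_nbr_eq G S v _ fun w hw h0 => (h w v hw.symm h0).1
  simp only [h1, h2]
  rw [Finset.sum_comm]
  refine Finset.sum_congr rfl fun v _ => Finset.sum_congr rfl fun w _ => ?_
  simp only [G.adj_comm v w]

/-- squared norm -/
noncomputable def nrm (f : V →₀ ℝ) : ℝ := pr (⇑f) f

theorem nrm_eq (f : V →₀ ℝ) {S : Finset V} (h : f.support ⊆ S) :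
    nrm f = ∑ v ∈ S, f v ^ 2 := by
  unfold nrm
  rw [pr_apply_of_subset _ _ h]
  exact Finset.sum_congr rfl fun v _ => by ring

theorem sum_inj_le (S : Finset V) (g : V → ℝ) (hg : ∀ v, 0 ≤ g v) (hS : ∀ v, g v ≠ 0 → v ∈ S)
    (m : ℕ) (X : ℕ → V) (hX : Set.InjOn X (range m : Set ℕ)) :
    ∑ i ∈ range m, g (X i) ≤ ∑ v ∈ S, g v := by
  classical
  rw [← Finset.sum_image (f := g) (g := X) (by simpa using hX)]
  rw [← Finset.sum_filter_ne_zero]
  refine Finset.sum_le_sum_of_subset_of_nonneg ?_ fun v _ _ => hg v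
  intro v hv
  rw [Finset.mem_filter] at hv
  exact hS v hv.2

theorem path_bound [Infinite V] (hconn : G.Connected) (f : V →₀ ℝ) (S : Finset V)
    (hS : ∀ v, f v ≠ 0 → v ∈ S) (hS2 : ∀ v w, f v ≠ 0 → G.Adj v w → w ∈ S) (x : V) :
    (f x) ^ 4 ≤ 4 * (∑ v ∈ S, ∑ w ∈ G.neighborFinset v, (f v - f w) ^ 2) *
      ∑ v ∈ S, f v ^ 2 := by
  classical
  obtain ⟨y, hy⟩ := Infinite.exists_notMem_finset f.support
  rw [Finsupp.notMem_support_iff] at hy
  obtain ⟨p, hp⟩ := (hconn.preconnected x y).exists_isPath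
  set m := p.length with hm
  have hinj : Set.InjOn p.getVert {i | i ≤ m} := hp.getVert_injOn
  have h0 : p.getVert 0 = x := p.getVert_zero
  have h1 : p.getVert m = y := p.getVert_length
  have hadj : ∀ i, i < m → G.Adj (p.getVert i) (p.getVert (i+1)) := fun i hi =>
    p.adj_getVert_succ hi
  have e1 : (f x) ^ 2 = ∑ i ∈ range m, (f (p.getVert i) - f (p.getVert (i+1))) *
      (f (p.getVert i) + f (p.getVert (i+1))) := by
    have h := Finset.sum_range_sub' (fun i => f (p.getVert i) ^ 2) m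
    rw [h0, h1, hy] at h
    have : ∑ i ∈ range m, (f (p.getVert i) - f (p.getVert (i+1))) *
      (f (p.getVert i) + f (p.getVert (i+1))) = ∑ i ∈ range m, (f (p.getVert i) ^ 2 -
        f (p.getVert (i+1)) ^ 2) := Finset.sum_congr rfl fun i _ => by ring
    rw [this, h]; ring
  have e2 : (f x) ^ 4 ≤ (∑ i ∈ range m, (f (p.getVert i) - f (p.getVert (i+1))) ^ 2) *
      ∑ i ∈ range m, (f (p.getVert i) + f (p.getVert (i+1))) ^ 2 := by
    have : (f x) ^ 4 = ((f x) ^ 2) ^ 2 := by ring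
    rw [this, e1]
    exact Finset.sum_mul_sq_le_sq_mul_sq _ _ _
  have e3 : ∑ i ∈ range m, (f (p.getVert i) - f (p.getVert (i+1))) ^ 2 ≤
      ∑ v ∈ S, ∑ w ∈ G.neighborFinset v, (f v - f w) ^ 2 := by
    refine le_trans (Finset.sum_le_sum (g := fun i => (fun v => ∑ w ∈ G.neighborFinset v,
      (f v - f w) ^ 2) (p.getVert i)) fun i hi => ?_)
      (sum_inj_le S (fun v => ∑ w ∈ G.neighborFinset v, (f v - f w) ^ 2) ?_ ?_ m p.getVert ?_)
    · exact Finset.single_le_sum (f := fun w => (f (p.getVert i) - f w) ^ 2)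
        (fun w _ => sq_nonneg _)
        ((G.mem_neighborFinset _ _).2 (hadj i (Finset.mem_range.1 hi)))
    · exact fun v => Finset.sum_nonneg fun w _ => sq_nonneg _
    · intro v hv
      by_contra hvS
      apply hv
      have hfv : f v = 0 := by
        by_contra h; exact hvS (hS v h)
      refine Finset.sum_eq_zero fun w hw => ?_
      have hfw : f w = 0 := by
        by_contra h
        exact hvS (hS2 w v h ((G.mem_neighborFinset _ _).1 hw).symm)
      rw [hfv, hfw]; ring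
    · intro i hi j hj hij
      have hi' : i < m := by simpa using hi
      have hj' : j < m := by simpa using hj
      exact hinj (by exact hi'.le) (by exact hj'.le) hij
  have e4 : ∑ i ∈ range m, (f (p.getVert i)) ^ 2 ≤ ∑ v ∈ S, f v ^ 2 := by
    refine sum_inj_le S (fun v => f v ^ 2) (fun v => sq_nonneg _) ?_ m p.getVert ?_
    · intro v hv
      exact hS v fun h => hv (by simp [h])
    · intro i hi j hj hij
      have hi' : i < m := by simpa using hi
      have hj' : j < m := by simpa using hj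
      exact hinj (by exact hi'.le) (by exact hj'.le) hij
  have e5 : ∑ i ∈ range m, (f (p.getVert (i+1))) ^ 2 ≤ ∑ v ∈ S, f v ^ 2 := by
    refine sum_inj_le S (fun v => f v ^ 2) (fun v => sq_nonneg _) ?_ m (fun i => p.getVert (i+1)) ?_
    · intro v hv
      exact hS v fun h => hv (by simp [h])
    · intro i hi j hj hij
      have hi' : i < m := by simpa using hi
      have hj' : j < m := by simpa using hj
      have := hinj (show i + 1 ≤ m from hi') (show j + 1 ≤ m from hj') hij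
      omega
  have e6 : ∑ i ∈ range m, (f (p.getVert i) + f (p.getVert (i+1))) ^ 2 ≤
      4 * ∑ v ∈ S, f v ^ 2 := by
    have : ∑ i ∈ range m, (f (p.getVert i) + f (p.getVert (i+1))) ^ 2 ≤
      ∑ i ∈ range m, (2 * f (p.getVert i) ^ 2 + 2 * f (p.getVert (i+1)) ^ 2) :=
      Finset.sum_le_sum fun i _ => by nlinarith [sq_nonneg (f (p.getVert i) - f (p.getVert (i+1)))]
    rw [Finset.sum_add_distrib, ← Finset.mul_sum, ← Finset.mul_sum] at this
    linarith
  have e7 : 0 ≤ ∑ i ∈ range m, (f (p.getVert i) + f (p.getVert (i+1))) ^ 2 :=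
    Finset.sum_nonneg fun i _ => sq_nonneg _
  have e8 : 0 ≤ ∑ v ∈ S, ∑ w ∈ G.neighborFinset v, (f v - f w) ^ 2 :=
    Finset.sum_nonneg fun v _ => Finset.sum_nonneg fun w _ => sq_nonneg _
  calc (f x) ^ 4 ≤ _ := e2
    _ ≤ (∑ v ∈ S, ∑ w ∈ G.neighborFinset v, (f v - f w) ^ 2) * (4 * ∑ v ∈ S, f v ^ 2) :=
      mul_le_mul e3 e6 e7 e8
    _ = _ := by ring

theorem energy_step {c : ℝ} {D : ℕ} (hc0 : 0 < c) (hcD : c * D = 1 / 2)
    (hD : ∀ v, G.degree v ≤ D) (f : V →₀ ℝ) (S : Finset V)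
    (hS : ∀ v, f v ≠ 0 → v ∈ S) (hS2 : ∀ v w, f v ≠ 0 → G.Adj v w → w ∈ S)
    (hS3 : (Ts G c f).support ⊆ S) :
    nrm (Ts G c f) + c / 2 * ∑ v ∈ S, ∑ w ∈ G.neighborFinset v, (f v - f w) ^ 2 ≤ nrm f := by
  have hsupp : f.support ⊆ S := fun v hv => hS v (Finsupp.mem_support_iff.1 hv)
  rw [nrm_eq _ hS3, nrm_eq _ hsupp]
  set E := ∑ v ∈ S, ∑ w ∈ G.neighborFinset v, (f v - f w) ^ 2 with hE
  have hsym : ∑ v ∈ S, ∑ w ∈ G.neighborFinset v, f w * (f w - f v) =
      ∑ v ∈ S, ∑ w ∈ G.neighborFinset v, f v * (f v - f w) := by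
    refine swap_sum G S (fun v w => f w * (f w - f v)) fun v w hvw h0 => ?_
    have hfw : f w ≠ 0 := fun h => h0 (by simp [h])
    exact ⟨hS2 w v hfw hvw.symm, hS w hfw⟩
  have hE2 : E = 2 * ∑ v ∈ S, ∑ w ∈ G.neighborFinset v, f v * (f v - f w) := by
    have : E = ∑ v ∈ S, ∑ w ∈ G.neighborFinset v, f v * (f v - f w) +
        ∑ v ∈ S, ∑ w ∈ G.neighborFinset v, f w * (f w - f v) := by
      rw [hE, ← Finset.sum_add_distrib]
      refine Finset.sum_congr rfl fun v _ => ?_
      rw [← Finset.sum_add_distrib]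
      exact Finset.sum_congr rfl fun w _ => by ring
    rw [this, hsym]; ring
  have hpt : ∀ v, (Ts G c f v) ^ 2 ≤ f v ^ 2 -
      2 * c * ∑ w ∈ G.neighborFinset v, f v * (f v - f w) +
      c ^ 2 * D * ∑ w ∈ G.neighborFinset v, (f v - f w) ^ 2 := by
    intro v
    have h1 : Ts G c f v = f v - c * ∑ w ∈ G.neighborFinset v, (f v - f w) := by
      rw [Ts_apply]
      unfold av
      have : ∑ w ∈ G.neighborFinset v, (f w - f v) = - ∑ w ∈ G.neighborFinset v, (f v - f w) := by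
        rw [← Finset.sum_neg_distrib]
        exact Finset.sum_congr rfl fun w _ => by ring
      rw [this]; ring
    have h2 : (∑ w ∈ G.neighborFinset v, (f v - f w)) ^ 2 ≤
        D * ∑ w ∈ G.neighborFinset v, (f v - f w) ^ 2 := by
      have h3 := sq_sum_le_card_mul_sum_sq (s := G.neighborFinset v) (f := fun w => f v - f w)
      rw [G.card_neighborFinset_eq_degree] at h3
      refine h3.trans (mul_le_mul_of_nonneg_right ?_ (Finset.sum_nonneg fun w _ => sq_nonneg _))
      exact_mod_cast hD v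
    have h3 : ∑ w ∈ G.neighborFinset v, f v * (f v - f w) =
        f v * ∑ w ∈ G.neighborFinset v, (f v - f w) := by rw [Finset.mul_sum]
    rw [h1, h3]
    have h4 : c ^ 2 * (∑ w ∈ G.neighborFinset v, (f v - f w)) ^ 2 ≤
        c ^ 2 * (D * ∑ w ∈ G.neighborFinset v, (f v - f w) ^ 2) :=
      mul_le_mul_of_nonneg_left h2 (sq_nonneg c)
    nlinarith [h4]
  have h5 := Finset.sum_le_sum fun v (_ : v ∈ S) => hpt v
  rw [Finset.sum_add_distrib, Finset.sum_sub_distrib, ← Finset.mul_sum, ← Finset.mul_sum,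
    ← hE] at h5
  have h6 : c ^ 2 * D * E = c / 2 * E := by
    have : c ^ 2 * D = c * (c * D) := by ring
    rw [this, hcD]; ring
  rw [h6] at h5
  have h7 : 2 * c * ∑ v ∈ S, ∑ w ∈ G.neighborFinset v, f v * (f v - f w) = c * E := by
    rw [hE2]; ring
  rw [h7] at h5
  linarith

theorem nrm_decay [Infinite V] (hconn : G.Connected) {c : ℝ} {D : ℕ} (hc0 : 0 < c)
    (hcD : c * D = 1 / 2) (hD : ∀ v, G.degree v ≤ D) (f : V →₀ ℝ) (x : V) :
    c * (f x) ^ 4 ≤ 8 * (nrm f - nrm (Ts G c f)) * nrm f := by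
  classical
  set S : Finset V := f.support ∪ (f.support.biUnion fun v => G.neighborFinset v) ∪
    (Ts G c f).support with hSdef
  have hS : ∀ v, f v ≠ 0 → v ∈ S := fun v hv =>
    Finset.mem_union_left _ (Finset.mem_union_left _ (Finsupp.mem_support_iff.2 hv))
  have hS2 : ∀ v w, f v ≠ 0 → G.Adj v w → w ∈ S := fun v w hv hvw =>
    Finset.mem_union_left _ (Finset.mem_union_right _ (Finset.mem_biUnion.2
      ⟨v, Finsupp.mem_support_iff.2 hv, (G.mem_neighborFinset _ _).2 hvw⟩))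
  have hS3 : (Ts G c f).support ⊆ S := Finset.subset_union_right
  have h1 := path_bound G hconn f S hS hS2 x
  have h2 := energy_step G hc0 hcD hD f S hS hS2 hS3
  have hsupp : f.support ⊆ S := fun v hv => hS v (Finsupp.mem_support_iff.1 hv)
  rw [← nrm_eq _ hsupp] at h1
  have h3 : 0 ≤ nrm f := by
    rw [nrm_eq _ hsupp]; exact Finset.sum_nonneg fun v _ => sq_nonneg _
  set E := ∑ v ∈ S, ∑ w ∈ G.neighborFinset v, (f v - f w) ^ 2 with hE
  calc c * (f x) ^ 4 ≤ c * (4 * E * nrm f) := mul_le_mul_of_nonneg_left h1 hc0.le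
    _ = 8 * (c / 2 * E) * nrm f := by ring
    _ ≤ 8 * (nrm f - nrm (Ts G c f)) * nrm f := by
      refine mul_le_mul_of_nonneg_right ?_ h3
      linarith

theorem nrm_nonneg (f : V →₀ ℝ) : 0 ≤ nrm f := by
  rw [nrm_eq f subset_rfl]; exact Finset.sum_nonneg fun v _ => sq_nonneg _

theorem exists_ge (f : V →₀ ℝ) (hf : 0 ≤ f) (hm : mass f = 1) : ∃ z, nrm f ≤ f z := by
  by_contra hcon
  push Not at hcon
  have hne : f.support.Nonempty := by
    by_contra h
    rw [Finset.not_nonempty_iff_eq_empty, Finsupp.support_eq_empty] at h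
    rw [h] at hm
    simp [mass] at hm
  have h1 : nrm f < nrm f := by
    calc nrm f = ∑ v ∈ f.support, f v * f v := by
          rw [nrm_eq f subset_rfl]; exact Finset.sum_congr rfl fun v _ => by ring
      _ < ∑ v ∈ f.support, f v * nrm f := by
          refine Finset.sum_lt_sum_of_nonempty hne fun v hv => ?_
          refine mul_lt_mul_of_pos_left (hcon v) ?_
          exact lt_of_le_of_ne (hf v) (Ne.symm (Finsupp.mem_support_iff.1 hv))
      _ = mass f * nrm f := by
          rw [← Finset.sum_mul]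
          unfold mass
          rw [pr_apply]
          simp
      _ = nrm f := by rw [hm, one_mul]
  exact lt_irrefl _ h1

theorem nrm_Kn_bound [Infinite V] (hconn : G.Connected) {c : ℝ} {D : ℕ} (hc0 : 0 < c)
    (hcD : c * D = 1 / 2) (hD : ∀ v, G.degree v ≤ D) (hc1 : c ≤ 1 / 2) (x : V) (n : ℕ) :
    nrm (Kn G c x n) ≤ 1 ∧ nrm (Kn G c x n) ^ 2 * (1 + c * n / 4) ≤ 1 := by
  have hcd : ∀ v, c * G.degree v ≤ 1 := fun v => by
    have : c * G.degree v ≤ c * D := mul_le_mul_of_nonneg_left (by exact_mod_cast hD v) hc0.le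
    linarith
  induction n with
  | zero =>
    have : nrm (Kn G c x 0) = 1 := by
      unfold nrm Kn
      rw [pr_single]; simp
    rw [this]; simp
  | succ n ih =>
    obtain ⟨ih1, ih2⟩ := ih
    set a := nrm (Kn G c x n) with ha
    set a' := nrm (Kn G c x (n+1)) with ha'
    have ha0 : 0 ≤ a := nrm_nonneg _
    have ha0' : 0 ≤ a' := nrm_nonneg _
    obtain ⟨z, hz⟩ := exists_ge (Kn G c x n) (Kn_nonneg G hc0.le hcd x n) (Kn_mass G c x n)
    have h1 := nrm_decay G hconn hc0 hcD hD (Kn G c x n) z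
    change c * _ ≤ 8 * (a - a') * a at h1
    change a ≤ _ at hz
    have h2 : a ^ 4 ≤ (Kn G c x n z) ^ 4 := pow_le_pow_left₀ ha0 hz 4
    have h3 : c * a ^ 4 ≤ 8 * (a - a') * a := (mul_le_mul_of_nonneg_left h2 hc0.le).trans h1
    rcases ha0.eq_or_lt with h0 | hpos
    · -- a = 0 impossible but harmless: then f = 0
      exfalso
      have h4 : nrm (Kn G c x n) = 0 := by rw [← ha, ← h0]
      have h5 : Kn G c x n = 0 := by
        ext v
        by_contra hv
        rw [nrm_eq _ subset_rfl] at h4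
        have h6 := (Finset.sum_eq_zero_iff_of_nonneg (fun v _ => sq_nonneg _)).1 h4 v
          (Finsupp.mem_support_iff.2 hv)
        exact hv (by simpa using h6)
      have h6 := Kn_mass G c x n
      rw [h5] at h6
      simp [mass] at h6
    · have h4 : c * a ^ 3 ≤ 8 * (a - a') := by
        by_contra h
        push Not at h
        have := mul_lt_mul_of_pos_right h hpos
        nlinarith
      have h5 : a' ≤ a * (1 - c / 8 * a ^ 2) := by nlinarith
      set y := c / 8 * a ^ 2 with hy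
      have hy0 : 0 ≤ y := by positivity
      have hy1 : y ≤ 1 := by
        have : a ^ 2 ≤ 1 := pow_le_one₀ ha0 ih1
        rw [hy]; nlinarith
      have h6 : a' ^ 2 ≤ a ^ 2 * (1 - y) ^ 2 := by
        have := pow_le_pow_left₀ ha0' h5 2
        rwa [mul_pow] at this
      constructor
      · have : a * (1 - y) ≤ 1 * 1 := mul_le_mul ih1 (by linarith) (by linarith) zero_le_one
        linarith
      · have h7 : a ^ 2 * (1 + c * ((n:ℝ) + 1) / 4) ≤ 1 + 2 * y := by
          have : a ^ 2 * (1 + c * ((n:ℝ) + 1) / 4) = a ^ 2 * (1 + c * n / 4) + 2 * y := by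
            rw [hy]; ring
          linarith
        push_cast
        have hn0 : (0:ℝ) ≤ 1 + c * ((n:ℝ) + 1) / 4 := by positivity
        calc a' ^ 2 * (1 + c * ((n:ℝ) + 1) / 4) ≤ (a ^ 2 * (1 - y) ^ 2) * (1 + c * ((n:ℝ) + 1) / 4) :=
              mul_le_mul_of_nonneg_right h6 hn0
          _ = (a ^ 2 * (1 + c * ((n:ℝ) + 1) / 4)) * (1 - y) ^ 2 := by ring
          _ ≤ (1 + 2 * y) * (1 - y) ^ 2 := mul_le_mul_of_nonneg_right h7 (sq_nonneg _)
          _ ≤ 1 := by nlinarith [mul_nonneg hy0 hy0, mul_nonneg (mul_nonneg hy0 hy0) (sub_nonneg.2 hy1)]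

theorem Kn_two_mul [Infinite V] (hconn : G.Connected) {c : ℝ} {D : ℕ} (hc0 : 0 < c)
    (hcD : c * D = 1 / 2) (hD : ∀ v, G.degree v ≤ D) (hc1 : c ≤ 1 / 2) (x z : V) (m : ℕ) :
    (Kn G c x (m + m) z) ^ 2 * (1 + c * m / 4) ≤ 1 := by
  classical
  have hcd : ∀ v, c * G.degree v ≤ 1 := fun v => by
    have : c * G.degree v ≤ c * D := mul_le_mul_of_nonneg_left (by exact_mod_cast hD v) hc0.le
    linarith
  have h1 : Kn G c x (m + m) z ≤ (nrm (Kn G c x m) + nrm (Kn G c z m)) / 2 := by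
    rw [Kn_add_eq]
    set S := (Kn G c x m).support ∪ (Kn G c z m).support
    rw [pr_apply_of_subset _ _ (Finset.subset_union_right (s₁ := (Kn G c x m).support)),
      nrm_eq _ (Finset.subset_union_left (s₂ := (Kn G c z m).support)),
      nrm_eq _ (Finset.subset_union_right (s₁ := (Kn G c x m).support)),
      ← Finset.sum_add_distrib, Finset.sum_div]
    refine Finset.sum_le_sum fun v _ => ?_
    nlinarith [sq_nonneg (Kn G c x m v - Kn G c z m v)]
  have h0 : 0 ≤ Kn G c x (m + m) z := Kn_nonneg G hc0.le hcd x _ z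
  obtain ⟨_, hx⟩ := nrm_Kn_bound G hconn hc0 hcD hD hc1 x m
  obtain ⟨_, hz⟩ := nrm_Kn_bound G hconn hc0 hcD hD hc1 z m
  have h2 : (Kn G c x (m + m) z) ^ 2 ≤ (nrm (Kn G c x m) ^ 2 + nrm (Kn G c z m) ^ 2) / 2 := by
    have := pow_le_pow_left₀ h0 h1 2
    nlinarith [sq_nonneg (nrm (Kn G c x m) - nrm (Kn G c z m))]
  have h3 : (0:ℝ) ≤ 1 + c * m / 4 := by positivity
  have := mul_le_mul_of_nonneg_right h2 h3
  nlinarith

theorem Kn_bound [Infinite V] (hconn : G.Connected) {c : ℝ} {D : ℕ} (hc0 : 0 < c)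
    (hcD : c * D = 1 / 2) (hD : ∀ v, G.degree v ≤ D) (hc1 : c ≤ 1 / 2) (x z : V) (n : ℕ) :
    (Kn G c x n z) ^ 2 * ((n:ℝ) + 1) ≤ 32 * D := by
  have hcd : ∀ v, c * G.degree v ≤ 1 := fun v => by
    have : c * G.degree v ≤ c * D := mul_le_mul_of_nonneg_left (by exact_mod_cast hD v) hc0.le
    linarith
  have hn0 : ∀ n z, 0 ≤ Kn G c x n z := fun n z => Kn_nonneg G hc0.le hcd x n z
  -- bound for all `n` in terms of `n / 2`
  have key : ∀ m : ℕ, ∀ z, (Kn G c x (m + m) z) ^ 2 * (1 + c * m / 4) ≤ 1 ∧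
      (Kn G c x (m + m + 1) z) ^ 2 * (1 + c * m / 4) ≤ 1 := by
    intro m z
    have hX : (0:ℝ) < 1 + c * m / 4 := by positivity
    refine ⟨Kn_two_mul G hconn hc0 hcD hD hc1 x z m, ?_⟩
    set B : ℝ := 1 / Real.sqrt (1 + c * m / 4) with hB
    have hBpos : 0 < B := by positivity
    have hB2 : B ^ 2 * (1 + c * m / 4) = 1 := by
      rw [hB, div_pow, Real.sq_sqrt hX.le]; field_simp
    have h1 : ∀ z, Kn G c x (m + m) z ≤ B := by
      intro z
      have h2 := Kn_two_mul G hconn hc0 hcD hD hc1 x z m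
      have h3 : (Kn G c x (m + m) z) ^ 2 ≤ B ^ 2 :=
        le_of_mul_le_mul_right (h2.trans_eq hB2.symm) hX
      exact le_of_sq_le_sq h3 hBpos.le
    have h2 : Kn G c x (m + m + 1) z ≤ B := by
      rw [Kn, Ts_apply]
      exact (av_mono G hc0.le hcd h1 z).trans_eq (av_const G c B z)
    calc (Kn G c x (m + m + 1) z) ^ 2 * (1 + c * m / 4) ≤ B ^ 2 * (1 + c * m / 4) :=
          mul_le_mul_of_nonneg_right (pow_le_pow_left₀ (hn0 _ _) h2 2) hX.le
      _ = 1 := hB2
  have hDpos : (0:ℝ) < D := by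
    by_contra h
    have hD0 : (D:ℝ) = 0 := le_antisymm (not_lt.1 h) (Nat.cast_nonneg D)
    rw [hD0] at hcD; norm_num at hcD
  have hcinv : c = 1 / (2 * D) := by field_simp; linarith
  have main : ∀ m : ℕ, ∀ t : ℝ, 0 ≤ t → t ^ 2 * (1 + c * m / 4) ≤ 1 →
      t ^ 2 * (2 * (m:ℝ) + 2) ≤ 32 * D := by
    intro m t ht h
    have hD1 : (1:ℝ) ≤ D := by
      have : (0:ℝ) < D := hDpos
      exact_mod_cast Nat.one_le_iff_ne_zero.2 (by intro h0; rw [h0] at this; simp at this)
    have h1 : t ^ 2 * (8 * D + m) ≤ 8 * D := by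
      have : t ^ 2 * (8 * D + m) = 8 * D * (t ^ 2 * (1 + c * m / 4)) := by
        rw [hcinv]; field_simp; ring
      rw [this]
      have := mul_le_mul_of_nonneg_left h (by positivity : (0:ℝ) ≤ 8 * D)
      linarith
    have h2 : t ^ 2 * (2 * (m:ℝ) + 2) ≤ 2 * (t ^ 2 * (8 * D + m)) := by
      nlinarith [sq_nonneg t]
    nlinarith
  rcases Nat.even_or_odd' n with ⟨m, hm | hm⟩
  · have hmm : n = m + m := by omega
    have h1 := main m _ (hn0 _ z) (key m z).1
    rw [hmm]
    push_cast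
    nlinarith [sq_nonneg (Kn G c x (m + m) z)]
  · have hmm : n = m + m + 1 := by omega
    have h1 := main m _ (hn0 _ z) (key m z).2
    rw [hmm]
    push_cast
    nlinarith [sq_nonneg (Kn G c x (m + m + 1) z)]

end Pool.Agent.Q287.DS
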