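import Pool.Agent.Q287.DS.Prob

/-!
# Almost sure boundedness of the obstacle recursion
-/

namespace Pool.Agent.Q287.DS

open MeasureTheory ProbabilityTheory Finset Filter

section kernel

variable {V : Type*} (G : SimpleGraph V) [G.LocallyFinite]

theorem pr_Kn_fun (c : ℝ) (g : V → ℝ) (n : ℕ) :
    (fun v => pr g (Kn G c v n)) = (av G c)^[n] g := by
  funext v; exact pr_Kn G c g v n

theorem poisson (c : ℝ) (g : V → ℝ) (n : ℕ) (v : V) :
    (∑ i ∈ range n, pr g (Kn G c v i)) -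
      av G c (fun v => ∑ i ∈ range n, pr g (Kn G c v i)) v = g v - pr g (Kn G c v n) := by
  induction n with
  | zero =>
    have : (fun v : V => ∑ i ∈ range 0, pr g (Kn G c v i)) = fun _ => (0:ℝ) := by
      funext v; simp
    rw [this, av_const, Kn, pr_single]; simp
  | succ n ih =>
    have h1 : (fun v => ∑ i ∈ range (n+1), pr g (Kn G c v i)) =
        fun v => (fun v => ∑ i ∈ range n, pr g (Kn G c v i)) v + (fun v => pr g (Kn G c v n)) v := by
      funext v; simp only [Finset.sum_range_succ]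
    rw [h1, av_add, Finset.sum_range_succ]
    have h2 : av G c (fun v => pr g (Kn G c v n)) v = pr g (Kn G c v (n+1)) := by
      rw [pr_Kn_fun, ← Function.iterate_succ_apply' (av G c) n g, ← pr_Kn]
    rw [h2]
    linarith

variable [Infinite V] (hconn : G.Connected) {c : ℝ} {D : ℕ} (hc0 : 0 < c) (hcD : c * D = 1 / 2)
    (hD : ∀ v, G.degree v ≤ D) (hc1 : c ≤ 1 / 2)
include hconn hc0 hcD hD hc1

theorem kn_le (x z : V) (n : ℕ) :
    Kn G c x n z ≤ Real.sqrt (32 * D) / Real.sqrt ((n:ℝ) + 1) := by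
  have h := Kn_bound G hconn hc0 hcD hD hc1 x z n
  have hn : (0:ℝ) < (n:ℝ) + 1 := by positivity
  rw [← Real.sqrt_div' _ hn.le]
  refine (le_abs_self _).trans (Real.abs_le_sqrt ?_)
  rw [le_div_iff₀ hn]
  exact h

theorem kn_pow_le (x z : V) (k : ℕ) :
    Kn G c x (4 ^ k) z ≤ 2 * Real.sqrt (32 * D) / 2 ^ k := by
  refine (kn_le G hconn hc0 hcD hD hc1 x z (4 ^ k)).trans ?_
  have h1 : (2:ℝ) ^ k ≤ Real.sqrt (((4 ^ k : ℕ) : ℝ) + 1) := by
    refine Real.le_sqrt_of_sq_le ?_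
    rw [← pow_mul, mul_comm k 2, pow_mul]
    push_cast
    norm_num
  have h2 : 0 ≤ Real.sqrt (32 * D) := Real.sqrt_nonneg _
  have h3 : (0:ℝ) < 2 ^ k := by positivity
  calc Real.sqrt (32 * D) / Real.sqrt (((4 ^ k : ℕ) : ℝ) + 1) ≤ Real.sqrt (32 * D) / 2 ^ k :=
        div_le_div_of_nonneg_left h2 h3 h1
    _ ≤ 2 * Real.sqrt (32 * D) / 2 ^ k := by
        refine div_le_div_of_nonneg_right ?_ h3.le
        linarith

omit [Infinite V] hconn hc0 hcD hD hc1 in
/-- Cesàro average of the heat kernel -/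
noncomputable def avk (c : ℝ) (x : V) (k : ℕ) : V →₀ ℝ :=
  ((1:ℝ) / 4 ^ k) • ∑ i ∈ range (4 ^ k), Kn G c x i

omit [Infinite V] hconn hc0 hcD hD hc1 in
theorem pr_avk (c : ℝ) (g : V → ℝ) (x : V) (k : ℕ) :
    pr g (avk G c x k) = (1 / 4 ^ k) * ∑ i ∈ range (4 ^ k), pr g (Kn G c x i) := by
  unfold avk
  rw [map_smul, map_sum, smul_eq_mul]

omit [Infinite V] hconn hc0 hcD hD hc1 in
theorem avk_mass (c : ℝ) (x : V) (k : ℕ) : mass (avk G c x k) = 1 := by
  unfold mass
  rw [pr_avk]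
  have : ∀ i, pr (fun _ => (1:ℝ)) (Kn G c x i) = 1 := fun i => Kn_mass G c x i
  simp only [this]
  simp

omit [Infinite V] hconn hc1 in
theorem avk_nonneg (x : V) (k : ℕ) : 0 ≤ avk G c x k := by
  have hcd : ∀ v, c * G.degree v ≤ 1 := fun v => by
    have : c * G.degree v ≤ c * D := mul_le_mul_of_nonneg_left (by exact_mod_cast hD v) hc0.le
    linarith
  unfold avk
  exact smul_nonneg (by positivity) (Finset.sum_nonneg fun i _ => Kn_nonneg G hc0.le hcd x i)

theorem avk_le (x z : V) (k : ℕ) :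
    avk G c x k z ≤ 2 * Real.sqrt (32 * D) / 2 ^ k := by
  unfold avk
  rw [Finsupp.smul_apply, Finsupp.finsetSum_apply, smul_eq_mul]
  have h1 : ∑ i ∈ range (4 ^ k), Kn G c x i z ≤
      ∑ i ∈ range (4 ^ k), Real.sqrt (32 * D) * (1 / Real.sqrt ((i:ℝ) + 1)) :=
    Finset.sum_le_sum fun i _ => by
      have := kn_le G hconn hc0 hcD hD hc1 x z i
      rwa [div_eq_mul_one_div] at this
  rw [← Finset.mul_sum] at h1
  have h2 := mul_le_mul_of_nonneg_left (sum_inv_sqrt (4 ^ k)) (Real.sqrt_nonneg (32 * (D:ℝ)))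
  have h3 : Real.sqrt ((4 ^ k : ℕ) : ℝ) = 2 ^ k := by
    rw [show (((4 ^ k : ℕ) : ℝ)) = (2 ^ k) ^ 2 by
      rw [← pow_mul, mul_comm k 2, pow_mul]; push_cast; norm_num]
    exact Real.sqrt_sq (by positivity)
  rw [h3] at h2
  have h4 : (4:ℝ) ^ k = 2 ^ k * 2 ^ k := by rw [← mul_pow]; norm_num
  calc 1 / 4 ^ k * ∑ i ∈ range (4 ^ k), Kn G c x i z
      ≤ 1 / 4 ^ k * (Real.sqrt (32 * D) * (2 * 2 ^ k)) :=
        mul_le_mul_of_nonneg_left (h1.trans h2) (by positivity)
    _ = 2 * Real.sqrt (32 * D) / 2 ^ k := by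
        rw [h4]; field_simp

end kernel

theorem W_bdd_ae {V : Type*} [Infinite V] (G : SimpleGraph V) [G.LocallyFinite]
    (hconn : G.Connected) {c : ℝ} {D : ℕ} (hc0 : 0 < c) (hcD : c * D = 1 / 2)
    (hD : ∀ v, G.degree v ≤ D) (hc1 : c ≤ 1 / 2)
    {Ω : Type*} [MeasurableSpace Ω] (P : Measure Ω) [IsProbabilityMeasure P] (ξ : V → Ω → ℝ)
    (hmeas : ∀ v, Measurable (ξ v)) (hind : iIndepFun ξ P)
    (hident : ∀ v w, IdentDistrib (ξ v) (ξ w) P P)
    {L δ : ℝ} (hL : 0 ≤ L) (hδ : 0 < δ) (hlow : ∀ v ω, -L ≤ ξ v ω)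
    (h3 : ∀ v, Integrable (fun ω => max (ξ v ω) 0 ^ 3) P)
    (hmean : ∀ v, ∫ ω, ξ v ω ∂P ≤ -(3 * δ)) (x : V) :
    ∀ᵐ ω ∂P, BddAbove (Set.range fun n => W G c (fun v => ξ v ω) n x) := by
  have hcd : ∀ v, c * G.degree v ≤ 1 := fun v => by
    have : c * G.degree v ≤ c * D := mul_le_mul_of_nonneg_left (by exact_mod_cast hD v) hc0.le
    linarith
  have hDpos : (0:ℝ) < D := by
    by_contra h
    have hD0 : (D:ℝ) = 0 := le_antisymm (not_lt.1 h) (Nat.cast_nonneg D)
    rw [hD0] at hcD; norm_num at hcD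
  -- integrability
  have hξint : ∀ v, Integrable (ξ v) P := fun v => by
    refine Integrable.mono' ((h3 v).add (integrable_const (L + 1)))
      (hmeas v).aestronglyMeasurable (ae_of_all _ fun ω => ?_)
    rw [Real.norm_eq_abs, Pi.add_apply, abs_le]
    have ht : 0 ≤ max (ξ v ω) 0 := le_max_right _ _
    have ht2 : ξ v ω ≤ max (ξ v ω) 0 := le_max_left _ _
    have ht3 := hlow v ω
    have ht4 : max (ξ v ω) 0 ≤ 1 + max (ξ v ω) 0 ^ 3 := by
      nlinarith [mul_nonneg ht (sq_nonneg (max (ξ v ω) 0 - 1)), sq_nonneg (max (ξ v ω) 0 - 1)]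
    have ht5 : 0 ≤ max (ξ v ω) 0 ^ 3 := by positivity
    constructor <;> linarith
  have hξint2 : ∀ v, Integrable (fun ω => (ξ v ω) ^ 2) P := fun v => by
    refine Integrable.mono' ((h3 v).add (integrable_const (L ^ 2 + 1)))
      ((hmeas v).pow_const 2).aestronglyMeasurable (ae_of_all _ fun ω => ?_)
    rw [Real.norm_eq_abs, Pi.add_apply, abs_of_nonneg (sq_nonneg _)]
    have ht : 0 ≤ max (ξ v ω) 0 := le_max_right _ _
    have ht3 := hlow v ω
    have ht5 : 0 ≤ max (ξ v ω) 0 ^ 3 := by positivity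
    rcases le_total (ξ v ω) 0 with h | h
    · nlinarith
    · rw [max_eq_left h]
      rw [max_eq_left h] at ht5
      nlinarith [mul_nonneg h (sq_nonneg (ξ v ω - 1)), sq_nonneg (ξ v ω - 1), sq_nonneg L]
  -- constants
  set C : ℝ := 2 * Real.sqrt (32 * D) with hC
  have hCpos : 0 < C := by positivity
  set κ : ℝ := 3 / δ with hκ
  have hκpos : 0 < κ := by positivity
  have hκδ : κ * δ = 3 := by rw [hκ]; field_simp
  set b : ℝ := Real.log (3 / 2) / (κ * C) with hb
  have hbpos : 0 < b := div_pos (Real.log_pos (by norm_num)) (by positivity)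
  have hexpb : Real.exp (κ * (C * b)) = 3 / 2 := by
    have : κ * (C * b) = Real.log (3 / 2) := by rw [hb]; field_simp
    rw [this, Real.exp_log (by norm_num)]
  set R : ℕ := ⌈2 * L / (3 * δ)⌉₊ + 1 with hRdef
  have hR1 : 1 ≤ R := by omega
  have hR : 2 * L ≤ 3 * δ * R := by
    have h1 := Nat.le_ceil (2 * L / (3 * δ))
    rw [div_le_iff₀ (by positivity)] at h1
    rw [hRdef]
    push_cast
    nlinarith
  set v2 : ℝ := ∫ ω, (ξ x ω) ^ 2 ∂P with hv2
  have hv2eq : ∀ v, ∫ ω, (ξ v ω) ^ 2 ∂P = v2 := fun v =>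
    ((hident v x).comp (u := fun t : ℝ => t ^ 2) (by fun_prop)).integral_eq
  have hv2nn : 0 ≤ v2 := integral_nonneg fun ω => sq_nonneg _
  -- truncations
  set Y : ℕ → V → Ω → ℝ := fun k v ω => min (ξ v ω) (b * 2 ^ k) with hY
  have hYm : ∀ k v, Measurable (Y k v) := fun k v => (hmeas v).min measurable_const
  have hYi : ∀ k, iIndepFun (Y k) P := fun k =>
    hind.comp (fun _ t => min t (b * 2 ^ k)) fun _ => measurable_id.min measurable_const
  have hβ : ∀ k : ℕ, 0 < b * 2 ^ k := fun k => by positivity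
  have hYup : ∀ k v ω, Y k v ω ≤ b * 2 ^ k := fun k v ω => min_le_right _ _
  have hYlow : ∀ k v ω, -L ≤ Y k v ω := fun k v ω => le_min (hlow v ω) (by linarith [hβ k])
  have hYξ : ∀ k v ω, Y k v ω ≤ ξ v ω := fun k v ω => min_le_left _ _
  have hYint : ∀ k v, Integrable (Y k v) P := fun k v =>
    integrable_of_bdd (hYm k v) (L + b * 2 ^ k) fun ω => abs_le.2
      ⟨by linarith [hYlow k v ω, hβ k], by linarith [hYup k v ω]⟩
  have hYmean : ∀ k v, ∫ ω, Y k v ω ∂P ≤ -(3 * δ) := fun k v =>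
    (integral_mono (hYint k v) (hξint v) fun ω => hYξ k v ω).trans (hmean v)
  have hYsq : ∀ k v, ∫ ω, (Y k v ω) ^ 2 ∂P ≤ v2 := fun k v => by
    rw [← hv2eq v]
    refine integral_mono_of_nonneg (ae_of_all _ fun ω => sq_nonneg _) (hξint2 v)
      (ae_of_all _ fun ω => ?_)
    simp only [hY]
    rcases le_total (ξ v ω) (b * 2 ^ k) with h | h
    · rw [min_eq_left h]
    · rw [min_eq_right h]
      exact pow_le_pow_left₀ (hβ k).le h 2
  -- the exponential bound
  set ε : ℕ → ℝ := fun k => (1 / (κ * (k + 1))) * Real.exp (κ * (k + 1) * (2 * δ) -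
    κ * (k + 1) * (3 * δ) + (κ * (k + 1)) ^ 2 * v2 * (C / 2 ^ k) *
      Real.exp (κ * (k + 1) * (C / 2 ^ k * (b * 2 ^ k)))) with hε
  have hεnn : ∀ k, 0 ≤ ε k := fun k => by simp only [hε]; positivity
  have key : ∀ (k : ℕ) (q : V →₀ ℝ), 0 ≤ q → mass q = 1 → (∀ z, q z ≤ C / 2 ^ k) →
      ∫ ω, max (pr (fun w => Y k w ω) q + 2 * δ) 0 ∂P ≤ ε k := by
    intro k q hq hm hp
    exact pos_moment (Y k) (hYm k) (hYi k) (Lb := L) (hβ k).le (hYup k) (hYlow k) (hYmean k)
      (hYsq k) q hq hm (by positivity) hp (by positivity) (2 * δ)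
  obtain ⟨B0, hB0⟩ := exists_bound_poly
  have hεle : ∀ k, (4:ℝ) ^ k * ε k ≤
      (1 / κ * Real.exp (κ ^ 2 * v2 * C * (3 / 2) * B0)) * (1 / 2) ^ k := by
    intro k
    have e1 : Real.exp (κ * (k + 1) * (C / 2 ^ k * (b * 2 ^ k))) = (3 / 2) ^ (k + 1) := by
      rw [← hexpb, ← Real.exp_nat_mul]
      congr 1
      push_cast
      field_simp
    have e2 : (κ * (k + 1)) ^ 2 * v2 * (C / 2 ^ k) * (3 / 2) ^ (k + 1) =
        κ ^ 2 * v2 * C * (3 / 2) * (((k:ℝ) + 1) ^ 2 * (3 / 4) ^ k) := by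
      have e2' : (3 / 2 : ℝ) ^ (k + 1) = (3 / 2) ^ k * (3 / 2) := pow_succ _ _
      rw [e2', show (3 / 4 : ℝ) ^ k = (3 / 2) ^ k / 2 ^ k by rw [← div_pow]; norm_num]
      field_simp
    have e3 : κ * (k + 1) * (2 * δ) - κ * (k + 1) * (3 * δ) = -3 * ((k:ℝ) + 1) := by
      have : κ * (k + 1) * (2 * δ) - κ * (k + 1) * (3 * δ) = -(κ * δ) * ((k:ℝ) + 1) := by ring
      rw [this, hκδ]
    simp only [hε]
    rw [e1, e2, e3, Real.exp_add]
    have h1 : Real.exp (κ ^ 2 * v2 * C * (3 / 2) * (((k:ℝ) + 1) ^ 2 * (3 / 4) ^ k)) ≤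
        Real.exp (κ ^ 2 * v2 * C * (3 / 2) * B0) :=
      Real.exp_le_exp.2 (mul_le_mul_of_nonneg_left (hB0 k) (by positivity))
    have h2 : Real.exp (-3 * ((k:ℝ) + 1)) ≤ (1 / 8) ^ (k + 1) := by
      have h3 : Real.exp (-3) ≤ 1 / 8 := by
        rw [Real.exp_neg, one_div]
        refine inv_anti₀ (by norm_num) ?_
        have h4 : (2:ℝ) ≤ Real.exp 1 := by
          have := Real.add_one_le_exp (1:ℝ); linarith
        calc (8:ℝ) = 2 ^ 3 := by norm_num
          _ ≤ Real.exp 1 ^ 3 := pow_le_pow_left₀ (by norm_num) h4 3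
          _ = Real.exp 3 := by rw [← Real.exp_nat_mul]; norm_num
      have h5 : Real.exp (-3 * ((k:ℝ) + 1)) = Real.exp (-3) ^ (k + 1) := by
        rw [← Real.exp_nat_mul]; congr 1; push_cast; ring
      rw [h5]
      exact pow_le_pow_left₀ (Real.exp_pos _).le h3 _
    have h6 : 1 / (κ * ((k:ℝ) + 1)) ≤ 1 / κ := by
      refine one_div_le_one_div_of_le hκpos ?_
      nlinarith [mul_nonneg hκpos.le (Nat.cast_nonneg (α := ℝ) k)]
    calc (4:ℝ) ^ k * (1 / (κ * (k + 1)) * (Real.exp (-3 * ((k:ℝ) + 1)) *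
          Real.exp (κ ^ 2 * v2 * C * (3 / 2) * (((k:ℝ) + 1) ^ 2 * (3 / 4) ^ k))))
        ≤ 4 ^ k * (1 / κ * ((1 / 8) ^ (k + 1) * Real.exp (κ ^ 2 * v2 * C * (3 / 2) * B0))) := by
          gcongr
      _ = (1 / κ * Real.exp (κ ^ 2 * v2 * C * (3 / 2) * B0)) * ((4 ^ k * (1 / 8) ^ k) * (1 / 8)) := by
          rw [pow_succ]; ring
      _ = (1 / κ * Real.exp (κ ^ 2 * v2 * C * (3 / 2) * B0)) * ((1 / 2) ^ k * (1 / 8)) := by
          rw [← mul_pow]; norm_num
      _ ≤ (1 / κ * Real.exp (κ ^ 2 * v2 * C * (3 / 2) * B0)) * (1 / 2) ^ k := by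
          refine mul_le_mul_of_nonneg_left ?_ (by positivity)
          have : (0:ℝ) < (1 / 2) ^ k := by positivity
          linarith
  have hεsum : Summable fun k => (4:ℝ) ^ k * ε k := by
    refine Summable.of_nonneg_of_le (fun k => mul_nonneg (by positivity) (hεnn k)) hεle ?_
    exact (summable_geometric_of_lt_one (by norm_num) (by norm_num)).mul_left _
  -- tails
  set H : ℕ → ℝ := fun k => ∫ ω, (ξ x ω - Y k x ω) ∂P with hH
  have hHeq : ∀ k v, ∫ ω, (ξ v ω - Y k v ω) ∂P = H k := fun k v =>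
    ((hident v x).comp (u := fun t : ℝ => t - min t (b * 2 ^ k)) (by fun_prop)).integral_eq
  have hHnn : ∀ k, 0 ≤ H k := fun k => integral_nonneg fun ω => sub_nonneg.2 (hYξ k x ω)
  have hHsum : Summable fun k => (4:ℝ) ^ k * H k := by
    refine summable_of_sum_range_le (c := ∫ ω, 4 / (3 * b ^ 2) * max (ξ x ω) 0 ^ 3 ∂P)
      (fun k => mul_nonneg (by positivity) (hHnn k)) fun K => ?_
    have h1 : ∑ k ∈ range K, (4:ℝ) ^ k * H k =
        ∫ ω, ∑ k ∈ range K, (4:ℝ) ^ k * (ξ x ω - Y k x ω) ∂P := by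
      have h2 : ∀ k ∈ range K, Integrable (fun ω => (4:ℝ) ^ k * (ξ x ω - Y k x ω)) P :=
        fun k _ => ((hξint x).sub (hYint k x)).const_mul _
      rw [integral_finsetSum _ h2]
      refine Finset.sum_congr rfl fun k _ => ?_
      rw [integral_const_mul]
    rw [h1]
    refine integral_mono (integrable_finsetSum _ fun k _ =>
      ((hξint x).sub (hYint k x)).const_mul _) ((h3 x).const_mul _) fun ω => ?_
    refine le_trans (Finset.sum_le_sum fun k _ => ?_)
      (sum_trunc_le hbpos (le_max_right (ξ x ω) 0) K)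
    refine mul_le_mul_of_nonneg_left ?_ (by positivity)
    simp only [hY]
    rcases le_total (ξ x ω) (b * 2 ^ k) with h | h
    · rw [min_eq_left h, sub_self]; exact le_max_right _ _
    · rw [min_eq_right h]
      exact (sub_le_sub_right (le_max_left _ _) _).trans (le_max_left _ _)
  -- the random functions
  set A : ℕ → V → Ω → ℝ := fun k v ω => pr (fun w => Y k w ω) (Kn G c v (4 ^ k)) with hA
  set F : ℕ → V → Ω → ℝ := fun k v ω => ∑ i ∈ range (4 ^ k), pr (fun w => Y k w ω) (Kn G c v i)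
    with hF
  set e : ℕ → V → Ω → ℝ := fun k v ω => max (A k v ω + 2 * δ) 0 + (ξ v ω - Y k v ω) with he
  set X : ℕ → Ω → ℝ := fun k ω => pr (fun v => max (F k v ω) 0) (Kn G c x (R * 4 ^ k)) +
        ∑ i ∈ Ico (R * 4 ^ k) (R * 4 ^ (k+1)), pr (fun v => e k v ω) (Kn G c x i) with hX
  have hprlow : ∀ k ω v i, -L ≤ pr (fun w => Y k w ω) (Kn G c v i) := fun k ω v i => by
    have := pr_mono (Kn_nonneg G hc0.le hcd v i) (fun w => hYlow k w ω)
    rwa [pr_const, Kn_mass, mul_one] at this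
  have hprup : ∀ k ω v i, pr (fun w => Y k w ω) (Kn G c v i) ≤ b * 2 ^ k := fun k ω v i => by
    have := pr_mono (Kn_nonneg G hc0.le hcd v i) (fun w => hYup k w ω)
    rwa [pr_const, Kn_mass, mul_one] at this
  have henn : ∀ k v ω, 0 ≤ e k v ω := fun k v ω =>
    add_nonneg (le_max_right _ _) (sub_nonneg.2 (hYξ k v ω))
  have hXnn : ∀ k ω, 0 ≤ X k ω := fun k ω =>
    add_nonneg (pr_nonneg (Kn_nonneg G hc0.le hcd x _) fun v => le_max_right _ _)
      (Finset.sum_nonneg fun i _ => pr_nonneg (Kn_nonneg G hc0.le hcd x _) fun v => henn k v ω)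
  have hblock : ∀ ω K, W G c (fun v => ξ v ω) (R * 4 ^ K) x ≤
      ∑ i ∈ range R, pr (fun v => max (ξ v ω) 0) (Kn G c x i) + L + ∑ k ∈ range K, X k ω := by
    intro ω K
    refine block_bound G hc0.le hcd hL hδ hR (fun v => ξ v ω) (fun k v => F k v ω)
      (fun k v => e k v ω) ?_ (fun k v => henn k v ω) ?_ x K
    · intro k v
      have := Finset.card_nsmul_le_sum (range (4 ^ k))
        (fun i => pr (fun w => Y k w ω) (Kn G c v i)) (-L) fun i _ => hprlow k ω v i
      rw [Finset.card_range, nsmul_eq_mul] at this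
      push_cast at this
      simp only [hF]
      linarith
    · intro k v
      have h1 := poisson G c (fun w => Y k w ω) (4 ^ k) v
      have h2 : A k v ω + 2 * δ ≤ max (A k v ω + 2 * δ) 0 := le_max_left _ _
      simp only [hF, he]
      simp only [hA] at h2 ⊢
      linarith
  -- measurability and integrability
  have hAm : ∀ k v, Measurable (A k v) := fun k v => measurable_pr (Y k) (hYm k) _
  have hFm : ∀ k v, Measurable (F k v) := fun k v =>
    Finset.measurable_sum _ fun i _ => measurable_pr (Y k) (hYm k) _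
  have hAint : ∀ k v, Integrable (A k v) P := fun k v => integrable_pr (Y k) (hYint k) _
  have hFint : ∀ k v, Integrable (F k v) P := fun k v =>
    integrable_finsetSum _ fun i _ => integrable_pr (Y k) (hYint k) _
  have hAposint : ∀ k v, Integrable (fun ω => max (A k v ω + 2 * δ) 0) P := fun k v =>
    ((hAint k v).add (integrable_const _)).sup (integrable_const 0)
  have hFposint : ∀ k v, Integrable (fun ω => max (F k v ω) 0) P := fun k v =>
    (hFint k v).sup (integrable_const 0)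
  have heint : ∀ k v, Integrable (e k v) P := fun k v =>
    (hAposint k v).add ((hξint v).sub (hYint k v))
  have hXint : ∀ k, Integrable (X k) P := fun k =>
    (integrable_pr (fun v ω => max (F k v ω) 0) (hFposint k) _).add
      (integrable_finsetSum _ fun i _ => integrable_pr (e k) (heint k) _)
  have heE : ∀ k v, ∫ ω, e k v ω ∂P ≤ ε k + H k := by
    intro k v
    have h1 : ∫ ω, e k v ω ∂P = ∫ ω, max (A k v ω + 2 * δ) 0 ∂P + ∫ ω, (ξ v ω - Y k v ω) ∂P :=
      integral_add (hAposint k v) ((hξint v).sub (hYint k v))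
    rw [h1, hHeq]
    have h2 := key k (Kn G c v (4 ^ k)) (Kn_nonneg G hc0.le hcd v _) (Kn_mass G c v _)
      fun z => kn_pow_le G hconn hc0 hcD hD hc1 v z k
    linarith
  have hFE : ∀ k v, ∫ ω, max (F k v ω) 0 ∂P ≤ 4 ^ k * ε k := by
    intro k v
    have h2 := key k (avk G c v k) (avk_nonneg G hc0 hcD hD v k) (avk_mass G c v _)
      fun z => avk_le G hconn hc0 hcD hD hc1 v z k
    have h3' : ∀ ω, max (F k v ω) 0 ≤ 4 ^ k * max (pr (fun w => Y k w ω) (avk G c v k) + 2 * δ) 0 := by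
      intro ω
      rw [pr_avk]
      have h4 : F k v ω = 4 ^ k * (1 / 4 ^ k * ∑ i ∈ range (4 ^ k), pr (fun w => Y k w ω) (Kn G c v i)) := by
        simp only [hF]; field_simp
      refine max_le ?_ (mul_nonneg (by positivity) (le_max_right _ _))
      rw [h4]
      refine mul_le_mul_of_nonneg_left ?_ (by positivity)
      refine le_trans ?_ (le_max_left _ _)
      linarith
    have h5 : Integrable (fun ω => max (pr (fun w => Y k w ω) (avk G c v k) + 2 * δ) 0) P :=
      ((integrable_pr (Y k) (hYint k) _).add (integrable_const _)).sup (integrable_const 0)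
    calc ∫ ω, max (F k v ω) 0 ∂P
        ≤ ∫ ω, 4 ^ k * max (pr (fun w => Y k w ω) (avk G c v k) + 2 * δ) 0 ∂P :=
          integral_mono (hFposint k v) (h5.const_mul _) h3'
      _ = 4 ^ k * ∫ ω, max (pr (fun w => Y k w ω) (avk G c v k) + 2 * δ) 0 ∂P :=
          integral_const_mul _ _
      _ ≤ 4 ^ k * ε k := mul_le_mul_of_nonneg_left h2 (by positivity)
  have hXE : ∀ k, ∫ ω, X k ω ∂P ≤ 4 ^ k * ε k + 3 * R * (4 ^ k * (ε k + H k)) := by
    intro k
    have h1 : ∫ ω, X k ω ∂P = ∫ ω, pr (fun v => max (F k v ω) 0) (Kn G c x (R * 4 ^ k)) ∂P +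
        ∫ ω, ∑ i ∈ Ico (R * 4 ^ k) (R * 4 ^ (k+1)), pr (fun v => e k v ω) (Kn G c x i) ∂P :=
      integral_add (integrable_pr (fun v ω => max (F k v ω) 0) (hFposint k) _)
        (integrable_finsetSum _ fun i _ => integrable_pr (e k) (heint k) _)
    rw [h1, integral_finsetSum _ fun i _ => integrable_pr (e k) (heint k) _]
    have h2 := integral_pr_le (fun v ω => max (F k v ω) 0) (hFposint k) (hFE k)
      (Kn G c x (R * 4 ^ k)) (Kn_nonneg G hc0.le hcd x _) (Kn_mass G c x _)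
    have h4 : ∑ i ∈ Ico (R * 4 ^ k) (R * 4 ^ (k+1)), ∫ ω, pr (fun v => e k v ω) (Kn G c x i) ∂P ≤
        ∑ i ∈ Ico (R * 4 ^ k) (R * 4 ^ (k+1)), (ε k + H k) :=
      Finset.sum_le_sum fun i _ => integral_pr_le (e k) (heint k) (heE k) _
        (Kn_nonneg G hc0.le hcd x _) (Kn_mass G c x _)
    rw [Finset.sum_const, Nat.card_Ico, nsmul_eq_mul] at h4
    have h5 : R * 4 ^ (k+1) - R * 4 ^ k = 3 * R * 4 ^ k := by
      rw [pow_succ]
      have : R * (4 ^ k * 4) = 3 * R * 4 ^ k + R * 4 ^ k := by ring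
      omega
    rw [h5] at h4
    push_cast at h4
    linarith
  have hsum : Summable fun k => (4:ℝ) ^ k * ε k + 3 * R * (4 ^ k * (ε k + H k)) := by
    refine hεsum.add (Summable.mul_left _ ?_)
    simp only [mul_add]
    exact hεsum.add hHsum
  -- almost sure finiteness
  have hfin : ∫⁻ ω, ∑' k, ENNReal.ofReal (X k ω) ∂P ≠ ⊤ := by
    rw [lintegral_tsum fun k => (hXint k).1.aemeasurable.ennreal_ofReal]
    have h1 : ∀ k, ∫⁻ ω, ENNReal.ofReal (X k ω) ∂P ≤
        ENNReal.ofReal ((4:ℝ) ^ k * ε k + 3 * R * (4 ^ k * (ε k + H k))) := by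
      intro k
      rw [← ofReal_integral_eq_lintegral_ofReal (hXint k) (ae_of_all _ fun ω => hXnn k ω)]
      exact ENNReal.ofReal_le_ofReal (hXE k)
    exact ne_top_of_le_ne_top hsum.tsum_ofReal_ne_top (ENNReal.tsum_le_tsum h1)
  have hae := ae_lt_top' (AEMeasurable.tsum fun k =>
    (hXint k).1.aemeasurable.ennreal_ofReal) hfin
  filter_upwards [hae] with ω hω
  refine ⟨∑ i ∈ range R, pr (fun v => max (ξ v ω) 0) (Kn G c x i) + L +
    (∑' k, ENNReal.ofReal (X k ω)).toReal, ?_⟩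
  rintro _ ⟨n, rfl⟩
  have h1 : n ≤ R * 4 ^ n := by
    have h2 : n ≤ 4 ^ n := (Nat.lt_pow_self (by norm_num)).le
    calc n ≤ 1 * 4 ^ n := by omega
      _ ≤ R * 4 ^ n := Nat.mul_le_mul_right _ hR1
  have h2 := W_mono G hc0.le hcd (fun v => ξ v ω) x h1
  simp only at h2
  have h4 := hblock ω n
  have h5 : ∑ k ∈ range n, X k ω ≤ (∑' k, ENNReal.ofReal (X k ω)).toReal := by
    rw [← ENNReal.ofReal_le_iff_le_toReal hω.ne, ENNReal.ofReal_sum_of_nonneg fun k _ => hXnn k ω]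
    exact ENNReal.sum_le_tsum _
  simp only
  linarith

end Pool.Agent.Q287.DS
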