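import Pool.Agent.Q287.DS.Heat

/-!
# Exponential moments of averages of independent variables, elementary series
-/

namespace Pool.Agent.Q287.DS

open MeasureTheory ProbabilityTheory Finset

theorem exp_le_quad {y B : ℝ} (hB : 0 ≤ B) (h : y ≤ B) :
    Real.exp y ≤ 1 + y + y ^ 2 * Real.exp B := by
  have h1 : 1 ≤ Real.exp B := Real.one_le_exp hB
  rcases le_or_gt y (-1) with hy | hy
  · have h2 : Real.exp y ≤ 1 := Real.exp_le_one_iff.2 (by linarith)
    nlinarith [mul_le_mul_of_nonneg_left h1 (sq_nonneg y)]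
  · rcases le_or_gt y 1 with hy1 | hy1
    · have h2 := (abs_le.1 (Real.abs_exp_sub_one_sub_id_le (abs_le.2 ⟨hy.le, hy1⟩))).2
      nlinarith [mul_le_mul_of_nonneg_left h1 (sq_nonneg y)]
    · have h2 : Real.exp y ≤ Real.exp B := Real.exp_le_exp.2 h
      have h3 : 1 ≤ y ^ 2 := by nlinarith
      nlinarith [mul_le_mul_of_nonneg_right h3 (Real.exp_pos B).le]

theorem max_le_exp_div {t lam : ℝ} (hl : 0 < lam) : max t 0 ≤ (1 / lam) * Real.exp (lam * t) := by
  rw [one_div, inv_mul_eq_div, le_div_iff₀ hl]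
  rcases le_total t 0 with h | h
  · rw [max_eq_right h, zero_mul]; exact (Real.exp_pos _).le
  · rw [max_eq_left h]
    have := Real.add_one_le_exp (lam * t)
    linarith [mul_comm t lam]

variable {ι Ω : Type*} [MeasurableSpace Ω] {P : Measure Ω}

theorem measurable_pr (X : ι → Ω → ℝ) (hX : ∀ i, Measurable (X i)) (q : ι →₀ ℝ) :
    Measurable fun ω => pr (fun i => X i ω) q := by
  simp only [pr_apply]
  exact Finset.measurable_sum _ fun i _ => (hX i).const_mul _

theorem integrable_pr (X : ι → Ω → ℝ) (hX : ∀ i, Integrable (X i) P) (q : ι →₀ ℝ) :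
    Integrable (fun ω => pr (fun i => X i ω) q) P := by
  simp only [pr_apply]
  exact integrable_finsetSum _ fun i _ => (hX i).const_mul _

theorem integral_pr_le (X : ι → Ω → ℝ) (hX : ∀ i, Integrable (X i) P) {a : ℝ}
    (ha : ∀ i, ∫ ω, X i ω ∂P ≤ a) (q : ι →₀ ℝ) (hq : 0 ≤ q) (hm : mass q = 1) :
    ∫ ω, pr (fun i => X i ω) q ∂P ≤ a := by
  have h1 : ∫ ω, pr (fun i => X i ω) q ∂P = pr (fun i => ∫ ω, X i ω ∂P) q := by
    simp only [pr_apply]
    rw [integral_finsetSum _ fun i _ => (hX i).const_mul _]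
    simp only [integral_const_mul]
  rw [h1]
  have := pr_mono hq ha
  rw [pr_const, hm, mul_one] at this
  exact this

variable [IsProbabilityMeasure P]

theorem integrable_of_bdd {g : Ω → ℝ} (hg : Measurable g) (C : ℝ) (h : ∀ ω, |g ω| ≤ C) :
    Integrable g P :=
  Integrable.of_bound hg.aestronglyMeasurable C (ae_of_all _ h)

theorem exp_moment (X : ι → Ω → ℝ) (hX : ∀ i, Measurable (X i)) (hind : iIndepFun X P)
    {Lb β m v2 : ℝ} (hβ : 0 ≤ β) (hup : ∀ i ω, X i ω ≤ β) (hlow : ∀ i ω, -Lb ≤ X i ω)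
    (hmean : ∀ i, ∫ ω, X i ω ∂P ≤ -m) (hsq : ∀ i, ∫ ω, (X i ω) ^ 2 ∂P ≤ v2)
    (q : ι →₀ ℝ) (hq : 0 ≤ q) (hqm : mass q = 1) {p : ℝ} (hp0 : 0 ≤ p) (hp : ∀ z, q z ≤ p)
    {s : ℝ} (hs : 0 ≤ s) :
    ∫ ω, Real.exp (s * pr (fun i => X i ω) q) ∂P ≤
      Real.exp (-(s * m) + s ^ 2 * v2 * p * Real.exp (s * (p * β))) := by
  have habs : ∀ i ω, |X i ω| ≤ |Lb| + β := fun i ω => by
    rw [abs_le]
    have h1 := neg_abs_le Lb
    have h2 := le_abs_self Lb
    have h3 := abs_nonneg Lb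
    constructor
    · linarith [hlow i ω]
    · linarith [hup i ω]
  have hint : ∀ i, Integrable (X i) P := fun i => integrable_of_bdd (hX i) _ (habs i)
  have hint2 : ∀ i, Integrable (fun ω => (X i ω) ^ 2) P := fun i =>
    integrable_of_bdd ((hX i).pow_const 2) ((|Lb| + β) ^ 2) fun ω => by
      rw [abs_pow]; exact pow_le_pow_left₀ (abs_nonneg _) (habs i ω) 2
  set E := Real.exp (s * (p * β)) with hE
  have hEpos : 0 < E := Real.exp_pos _
  have hmgf : ∀ i, mgf (fun ω => q i * X i ω) P s ≤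
      Real.exp (-(s * m) * q i + s ^ 2 * v2 * p * E * q i) := by
    intro i
    unfold mgf
    have hqi : 0 ≤ q i := hq i
    have hpt : ∀ ω, Real.exp (s * (q i * X i ω)) ≤
        1 + s * q i * X i ω + s ^ 2 * (q i) ^ 2 * E * (X i ω) ^ 2 := by
      intro ω
      have h1 : s * (q i * X i ω) ≤ s * (p * β) := by
        refine mul_le_mul_of_nonneg_left ?_ hs
        calc q i * X i ω ≤ q i * β := mul_le_mul_of_nonneg_left (hup i ω) hqi
          _ ≤ p * β := mul_le_mul_of_nonneg_right (hp i) hβ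
      have h2 := exp_le_quad (by positivity : (0:ℝ) ≤ s * (p * β)) h1
      rw [← hE] at h2
      refine h2.trans (le_of_eq ?_)
      ring
    have hexpint : Integrable (fun ω => Real.exp (s * (q i * X i ω))) P := by
      refine integrable_of_bdd (by have := hX i; fun_prop) (Real.exp (s * (p * β))) fun ω => ?_
      rw [abs_of_pos (Real.exp_pos _)]
      refine Real.exp_le_exp.2 (mul_le_mul_of_nonneg_left ?_ hs)
      calc q i * X i ω ≤ q i * β := mul_le_mul_of_nonneg_left (hup i ω) hqi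
          _ ≤ p * β := mul_le_mul_of_nonneg_right (hp i) hβ
    have hint3 : Integrable (fun ω => 1 + s * q i * X i ω) P :=
      (integrable_const 1).add ((hint i).const_mul _)
    have h3 : ∫ ω, Real.exp (s * (q i * X i ω)) ∂P ≤
        ∫ ω, (1 + s * q i * X i ω + s ^ 2 * (q i) ^ 2 * E * (X i ω) ^ 2) ∂P :=
      integral_mono hexpint (hint3.add ((hint2 i).const_mul _)) hpt
    rw [integral_add hint3 ((hint2 i).const_mul _),
      integral_add (integrable_const 1) ((hint i).const_mul _), integral_const_mul,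
      integral_const_mul] at h3
    simp only [integral_const, probReal_univ, one_smul] at h3
    have h4 : s * q i * ∫ ω, X i ω ∂P ≤ s * q i * (-m) :=
      mul_le_mul_of_nonneg_left (hmean i) (mul_nonneg hs hqi)
    have h5 : s ^ 2 * (q i) ^ 2 * E * ∫ ω, (X i ω) ^ 2 ∂P ≤ s ^ 2 * (q i * p) * E * v2 := by
      refine mul_le_mul ?_ (hsq i) (integral_nonneg fun ω => sq_nonneg _) (by positivity)
      refine mul_le_mul_of_nonneg_right (mul_le_mul_of_nonneg_left ?_ (sq_nonneg s)) hEpos.le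
      rw [pow_two]
      exact mul_le_mul_of_nonneg_left (hp i) hqi
    have h6 := Real.add_one_le_exp (-(s * m) * q i + s ^ 2 * v2 * p * E * q i)
    refine le_trans (h3.trans ?_) h6
    linarith
  have h1 : ∫ ω, Real.exp (s * pr (fun i => X i ω) q) ∂P =
      mgf (∑ i ∈ q.support, fun ω => q i * X i ω) P s := by
    unfold mgf
    refine integral_congr_ae (ae_of_all _ fun ω => ?_)
    simp only [pr_apply, Finset.sum_apply]
  have hind2 : iIndepFun (fun i ω => q i * X i ω) P :=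
    hind.comp (fun i y => q i * y) fun i => measurable_const_mul _
  rw [h1, hind2.mgf_sum fun i => (hX i).const_mul _]
  refine (Finset.prod_le_prod (fun i _ => mgf_nonneg) fun i _ => hmgf i).trans ?_
  rw [← Real.exp_sum]
  refine le_of_eq ?_
  congr 1
  rw [Finset.sum_add_distrib, ← Finset.mul_sum, ← Finset.mul_sum]
  have : ∑ i ∈ q.support, q i = 1 := by
    rw [← hqm]; unfold mass; rw [pr_apply]; simp
  rw [this]; ring

theorem pos_moment (X : ι → Ω → ℝ) (hX : ∀ i, Measurable (X i)) (hind : iIndepFun X P)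
    {Lb β m v2 : ℝ} (hβ : 0 ≤ β) (hup : ∀ i ω, X i ω ≤ β) (hlow : ∀ i ω, -Lb ≤ X i ω)
    (hmean : ∀ i, ∫ ω, X i ω ∂P ≤ -m) (hsq : ∀ i, ∫ ω, (X i ω) ^ 2 ∂P ≤ v2)
    (q : ι →₀ ℝ) (hq : 0 ≤ q) (hqm : mass q = 1) {p : ℝ} (hp0 : 0 ≤ p) (hp : ∀ z, q z ≤ p)
    {s : ℝ} (hs : 0 < s) (a : ℝ) :
    ∫ ω, max (pr (fun i => X i ω) q + a) 0 ∂P ≤
      (1 / s) * Real.exp (s * a - s * m + s ^ 2 * v2 * p * Real.exp (s * (p * β))) := by
  have habs : ∀ i ω, |X i ω| ≤ |Lb| + β := fun i ω => by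
    rw [abs_le]
    have h1 := neg_abs_le Lb
    have h2 := le_abs_self Lb
    have h3 := abs_nonneg Lb
    constructor
    · linarith [hlow i ω]
    · linarith [hup i ω]
  have hmeas := measurable_pr X hX q
  have hbd : ∀ ω, pr (fun i => X i ω) q ≤ β := fun ω => by
    have := pr_mono hq (fun i => hup i ω)
    rwa [pr_const, hqm, mul_one] at this
  have hexpint : Integrable (fun ω => Real.exp (s * pr (fun i => X i ω) q)) P := by
    refine integrable_of_bdd (by fun_prop) (Real.exp (s * β)) fun ω => ?_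
    rw [abs_of_pos (Real.exp_pos _)]
    exact Real.exp_le_exp.2 (mul_le_mul_of_nonneg_left (hbd ω) hs.le)
  have h1 : ∫ ω, max (pr (fun i => X i ω) q + a) 0 ∂P ≤
      ∫ ω, ((1 / s) * Real.exp (s * a)) * Real.exp (s * pr (fun i => X i ω) q) ∂P := by
    refine integral_mono_of_nonneg (ae_of_all _ fun ω => le_max_right _ _)
      (hexpint.const_mul _) (ae_of_all _ fun ω => ?_)
    refine (max_le_exp_div hs).trans (le_of_eq ?_)
    simp only
    rw [mul_add, Real.exp_add]; ring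
  rw [integral_const_mul] at h1
  have h2 := exp_moment X hX hind hβ hup hlow hmean hsq q hq hqm hp0 hp hs.le
  refine h1.trans ((mul_le_mul_of_nonneg_left h2 (by positivity)).trans (le_of_eq ?_))
  rw [mul_assoc, ← Real.exp_add]
  congr 2
  ring

/-! ## Elementary series -/

theorem sum_four_pow (K : ℕ) : ∑ k ∈ range (K+1), (4:ℝ) ^ k ≤ 4 / 3 * 4 ^ K := by
  induction K with
  | zero => simp; norm_num
  | succ K ih =>
    rw [Finset.sum_range_succ, pow_succ]
    linarith [pow_pos (by norm_num : (0:ℝ) < 4) K]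

theorem sum_trunc_le {b t : ℝ} (hb : 0 < b) (ht : 0 ≤ t) (K : ℕ) :
    ∑ k ∈ range K, (4:ℝ) ^ k * max (t - b * 2 ^ k) 0 ≤ 4 / (3 * b ^ 2) * t ^ 3 := by
  induction K with
  | zero => simp; positivity
  | succ K ih =>
    rcases le_or_gt t (b * 2 ^ K) with h | h
    · rw [Finset.sum_range_succ, max_eq_right (by linarith), mul_zero, add_zero]
      exact ih
    · have h1 : ∑ k ∈ range (K+1), (4:ℝ) ^ k * max (t - b * 2 ^ k) 0 ≤
          ∑ k ∈ range (K+1), (4:ℝ) ^ k * t := by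
        refine Finset.sum_le_sum fun k _ => mul_le_mul_of_nonneg_left ?_ (by positivity)
        refine max_le ?_ ht
        have : 0 < b * 2 ^ k := by positivity
        linarith
      rw [← Finset.sum_mul] at h1
      have h2 := mul_le_mul_of_nonneg_right (sum_four_pow K) ht
      have h3 : (b * 2 ^ K) ^ 2 ≤ t ^ 2 := pow_le_pow_left₀ (by positivity) h.le 2
      have h4 : (b * 2 ^ K) ^ 2 = b ^ 2 * 4 ^ K := by
        rw [mul_pow, ← pow_mul, mul_comm K 2, pow_mul]; norm_num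
      rw [h4] at h3
      refine h1.trans (h2.trans ?_)
      have h5 : 4 / (3 * b ^ 2) * t ^ 3 = 4 / 3 * (t ^ 2 / b ^ 2) * t := by
        field_simp
      rw [h5]
      refine mul_le_mul_of_nonneg_right (mul_le_mul_of_nonneg_left ?_ (by norm_num)) ht
      rw [le_div_iff₀ (by positivity)]
      linarith

theorem exists_bound_poly : ∃ B : ℝ, ∀ k : ℕ, ((k:ℝ) + 1) ^ 2 * (3 / 4) ^ k ≤ B := by
  have h := tendsto_pow_const_mul_const_pow_of_lt_one 2 (by norm_num : (0:ℝ) ≤ 3 / 4)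
    (by norm_num : (3:ℝ) / 4 < 1)
  obtain ⟨B, hB⟩ := h.bddAbove_range
  refine ⟨B * (4 / 3), fun k => ?_⟩
  have h1 := hB ⟨k + 1, rfl⟩
  simp only at h1
  push_cast at h1
  have h2 : (3 / 4 : ℝ) ^ (k + 1) = (3 / 4) ^ k * (3 / 4) := pow_succ _ _
  rw [h2] at h1
  nlinarith

theorem sum_inv_sqrt (n : ℕ) : ∑ i ∈ range n, 1 / Real.sqrt ((i:ℝ) + 1) ≤ 2 * Real.sqrt n := by
  induction n with
  | zero => simp
  | succ n ih =>
    rw [Finset.sum_range_succ]
    push_cast
    have h1 : 0 < Real.sqrt ((n:ℝ) + 1) := Real.sqrt_pos.2 (by positivity)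
    have h2 : Real.sqrt ((n:ℝ) + 1) ^ 2 = (n:ℝ) + 1 := Real.sq_sqrt (by positivity)
    have h3 : Real.sqrt (n:ℝ) ^ 2 = n := Real.sq_sqrt (by positivity)
    have h4 : 0 ≤ Real.sqrt (n:ℝ) := Real.sqrt_nonneg _
    have h5 : 1 / Real.sqrt ((n:ℝ) + 1) ≤ 2 * Real.sqrt ((n:ℝ) + 1) - 2 * Real.sqrt n := by
      rw [div_le_iff₀ h1]
      nlinarith [sq_nonneg (Real.sqrt ((n:ℝ) + 1) - Real.sqrt n)]
    linarith

end Pool.Agent.Q287.DS
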